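import Pool.Agent.MP_3ee8cb_gt.DQ.Spec
import Pool.Agent.MP_3ee8cb_gt.DZ.REND1

/-! If almost every direction is touched, the feet of the fibre are one point. -/

namespace Pool.Agent.MP_3ee8cb_gt.DQ

open Set Filter Topology MeasureTheory Real
open scoped RealInnerProductSpace
open DN (Dim dm)

variable [Dim]

open DN DZ DZE

namespace E1x

theorem flat (b : V → ℝ) (n : V → V) (z : V) (h : ‖n z‖ = 1) :
    Flat (fun w => gq b n (z, w)) (n z) := by
  refine flat_max ?_ fun v hv => ?_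
  · exact ((innerSL ℝ (n z)).differentiableAt (x := n z)).const_mul (exp (b z))
  · refine mul_le_mul_of_nonneg_left ?_ (exp_pos _).le
    rw [real_inner_self_eq_norm_sq, h, one_pow]
    exact (real_inner_le_norm _ _).trans_eq (by rw [h, hv, one_mul])

end E1x

open E1x DZ.E1

theorem sEND1 : SEND1 := by
  intro m lg dX P _ A bf bg bh ms x z ae
  have y := bf.yw
  have hK := bf.cpt x
  have c0 : Continuous fun q : P × V => A.ν q.1 z :=
    bh.cn.comp (f := fun q : P × V => (q.1, z)) (by fun_prop)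
  have c2 : Continuous fun q : P × V => gq (A.β q.1) (A.ν q.1) (z, q.2) :=
    (bf.cont.comp (f := fun q : P × V => (q.1, z)) (by fun_prop)).rexp.mul
      (c0.inner continuous_snd)
  have c3 : IsClosed ((⋂ r ∈ {p | A.pr p = x}, {q : P × V | gq (A.β r) (A.ν r) (z, q.2) ≤
      gq (A.β q.1) (A.ν q.1) (z, q.2)}) ∩ {q | A.ν q.1 z = q.2}) :=
    (isClosed_biInter fun r _ => isClosed_le
      (c2.comp (f := fun q : P × V => (r, q.2)) (by fun_prop)) c2).inter
      (isClosed_eq c0 continuous_snd)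
  have al : ∀ w, ‖w‖ = 1 → Tq A x z w := fun w hw => by
    obtain ⟨p, h1, h2, h3⟩ := ms.den _ (closed_ex hK c3) (ae.mono fun w ⟨p, h1, h2, h3⟩ =>
      ⟨p, h1, mem_iInter₂.2 h3, h2⟩) w hw
    exact ⟨p, h1, h3, fun r hr => mem_iInter₂.1 h2 r hr⟩
  have cU : Continuous fun w : V =>
      sSup ((fun p => gq (A.β p) (A.ν p) (z, w)) '' {p | A.pr p = x}) :=
    hK.continuous_sSup (c2.comp continuous_swap)
  have eU : ∀ w p, A.pr p = x →
      (∀ r, A.pr r = x → gq (A.β r) (A.ν r) (z, w) ≤ gq (A.β p) (A.ν p) (z, w)) →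
      sSup ((fun p => gq (A.β p) (A.ν p) (z, w)) '' {p | A.pr p = x}) =
        gq (A.β p) (A.ν p) (z, w) :=
    fun w p hp h => IsGreatest.csSup_eq ⟨mem_image_of_mem _ hp, forall_mem_image.2 h⟩
  have co := fun w v hw hv => const cU.continuousOn (w := w) (v := v) (fun w hw => by
    obtain ⟨p, h1, h2, h3⟩ := al w hw
    refine ⟨_, h2 ▸ flat (A.β p) (A.ν p) z ((bf.isb p).unit z), (eU w p h1 h3).symm,
      fun v hv => ?_⟩
    obtain ⟨q, h4, -, h5⟩ := al v hv
    rw [eU v q h4 h5]; exact h5 p h1) hw hv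
  have val : ∀ p, A.pr p = x →
      sSup ((fun q => gq (A.β q) (A.ν q) (z, A.ν p z)) '' {p | A.pr p = x}) = exp (A.β p z) :=
    fun p hp => by
    obtain ⟨q, h1, h2, h3⟩ := al _ ((bf.isb p).unit z)
    rw [eU _ q h1 h3, gq, h2, real_inner_self_eq_norm_sq, (bf.isb p).unit, one_pow, mul_one,
      bg.same q p z (h1.trans hp.symm) h2]
  have sm : ∀ p, A.pr p = x → ∀ q, A.pr q = x → A.β p z = A.β q z := fun p hp q hq => by
    have h1 := co _ _ ((bf.isb p).unit z) ((bf.isb q).unit z)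
    simp only [val p hp, val q hq] at h1
    exact exp_injective h1
  have zero : ∀ p, A.pr p = x → A.β p z = 0 := fun p hp => by
    obtain ⟨r, r1, r2, -⟩ := al (-A.ν p z) (by rw [norm_neg, (bf.isb p).unit])
    have h1 : A.β p z + A.β r z ≤ 0 := le_of_forall_pos_le_add fun e he => by
      obtain ⟨T, hT⟩ := (bf.gr p r (hp.trans r1.symm) e he).exists
      have h2 := opp y (bf.isb p) (bf.isb r) r2 (m.Z T (A.ft r, A.ν r (A.ft r))).1
      rw [(bf.isb r).ray, bf.foot] at h2
      linarith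
    linarith [sm p hp r r1, sm p hp _ ((bf.flp p).1.trans hp), bg.opp p z]
  intro p hp
  obtain ⟨f1, f2, f3⟩ := bf.flp p
  refine foot y (bf.isb p) (bf.isb (A.fl p)) f3 (by rw [zero p hp, bf.foot]) ?_
  rw [zero _ (f1.trans hp), ← f2, bf.foot]

end Pool.Agent.MP_3ee8cb_gt.DQ
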