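import Pool.Agent.MP_3ee8cb_gt.DQ.Spec

/-! The support function is touched from below by the function of a maximiser. -/

namespace Pool.Agent.MP_3ee8cb_gt.DQ

open Set Filter Topology Real
open scoped RealInnerProductSpace
open DN (Dim dm)

variable [Dim]

open DN DZ

namespace TOUx

theorem sq_le (E : V →L[ℝ] V) (h : ℝ) (h0 : 0 ≤ h) (hs : ∀ a b, ⟪E a, b⟫ = ⟪a, E b⟫)
    (hb : ∀ a, 0 ≤ ⟪E a, a⟫ ∧ ⟪E a, a⟫ ≤ h * ‖a‖ ^ 2) (w : V) :
    ‖E w‖ ^ 2 ≤ h * ⟪E w, w⟫ := by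
  have key : ∀ s : ℝ, 0 ≤ s ^ 2 * ⟪E w, w⟫ - 2 * s * ‖E w‖ ^ 2 + h * ‖E w‖ ^ 2 := by
    intro s
    have h1 := (hb (s • w - E w)).1
    have h2 := (hb (E w)).2
    have e1 : ⟪E (E w), w⟫ = ‖E w‖ ^ 2 := by rw [hs, real_inner_self_eq_norm_sq]
    simp only [map_sub, map_smul, inner_sub_left, inner_sub_right, real_inner_smul_left,
      real_inner_smul_right, real_inner_self_eq_norm_sq, e1] at h1
    nlinarith
  rcases h0.eq_or_lt with hz | hp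
  · have h1 := key 1
    have h2 := (hb w).2
    have h3 := (hb w).1
    subst hz
    nlinarith
  · have h1 := key h
    have h2 : 0 ≤ h * (h * ⟪E w, w⟫ - ‖E w‖ ^ 2) := by nlinarith
    have h3 := (mul_nonneg_iff_of_pos_left hp).1 h2
    linarith

theorem form_le (E : V →L[ℝ] V) (h : ℝ) (n w : V) (hs : ∀ a b, ⟪E a, b⟫ = ⟪a, E b⟫)
    (hn : E n = 0) (hb : ∀ a, 0 ≤ ⟪E a, a⟫ ∧ ⟪E a, a⟫ ≤ h * ‖a‖ ^ 2) (n1 : ‖n‖ = 1)
    (w1 : ‖w‖ = 1) : ⟪E w, w⟫ ≤ h * (1 - ⟪n, w⟫ ^ 2) := by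
  have h1 := (hb (w - ⟪n, w⟫ • n)).2
  have e1 : ⟪E w, n⟫ = 0 := by rw [hs, hn, inner_zero_right]
  have e2 : ⟪E (w - ⟪n, w⟫ • n), w - ⟪n, w⟫ • n⟫ = ⟪E w, w⟫ := by
    rw [map_sub, map_smul, hn, smul_zero, sub_zero, inner_sub_right, real_inner_smul_right, e1,
      mul_zero, sub_zero]
  have e3 : ‖w - ⟪n, w⟫ • n‖ ^ 2 = 1 - ⟪n, w⟫ ^ 2 := by
    rw [norm_sub_sq_real, real_inner_smul_right, norm_smul, n1, w1, real_inner_comm n w,
      Real.norm_eq_abs, mul_one, sq_abs]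
    ring
  rw [e2, e3] at h1
  exact h1

theorem der (m : MF) (b : V → ℝ) (ν : V → V) (z w : V) (E D : V →L[ℝ] V)
    (hk : ∀ u a c, ⟪m.om z u a, c⟫ = -⟪a, m.om z u c⟫) (hs : ∀ a c, ⟪E a, c⟫ = ⟪a, E c⟫)
    (hb : HasFDerivAt b (-(innerSL ℝ (ν z)).comp (m.S z)) z) (hD : HasFDerivAt ν D z)
    (hE : ∀ u, D u + m.om z u (ν z) = -(m.S z u - ⟪ν z, m.S z u⟫ • ν z + E (m.S z u)))
    (ht : 0 < ⟪ν z, w⟫) : ∃ L : V × V →L[ℝ] ℝ,
    HasFDerivAt (fun q => log (gq b ν q)) L (z, w) ∧ ∀ ξ, m.ver (z, w) ξ = 0 →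
      L ξ = -⟪(⟪ν z, w⟫ : ℝ)⁻¹ • (w + E w), m.hor (z, w) ξ⟫ := by
  have f1 : HasFDerivAt (fun q : V × V => q.1) (ContinuousLinearMap.fst ℝ V V) (z, w) :=
    hasFDerivAt_fst
  have f2 : HasFDerivAt (fun q : V × V => q.2) (ContinuousLinearMap.snd ℝ V V) (z, w) :=
    hasFDerivAt_snd
  have b1 := (HasFDerivAt.comp (z, w) (g := b) hb f1).exp
  have n1 := (HasFDerivAt.comp (z, w) (g := ν) hD f1).inner ℝ f2
  have g0 : exp (b z) * ⟪ν z, w⟫ ≠ 0 := (mul_pos (exp_pos _) ht).ne'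
  have g1 := (b1.mul n1).log g0
  refine ⟨_, g1, fun ξ hξ => ?_⟩
  have e2 : ξ.2 = -m.om z ξ.1 w := by
    have : ξ.2 + m.om z ξ.1 w = 0 := by simpa [MF.ver] using hξ
    exact eq_neg_of_add_eq_zero_left this
  have e1 : D ξ.1 = -(m.S z ξ.1 - ⟪ν z, m.S z ξ.1⟫ • ν z + E (m.S z ξ.1)) - m.om z ξ.1 (ν z) :=
    eq_sub_of_add_eq (hE ξ.1)
  have e3 : ⟪ν z, ξ.2⟫ + ⟪D ξ.1, w⟫ = ⟪ν z, m.S z ξ.1⟫ * ⟪ν z, w⟫ - ⟪w + E w, m.S z ξ.1⟫ := by
    rw [e1, e2, inner_neg_right, inner_sub_left, inner_neg_left, inner_add_left, inner_sub_left,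
      real_inner_smul_left, hk, hs, inner_add_left, real_inner_comm (m.S z ξ.1) w,
      real_inner_comm (m.S z ξ.1) (E w)]
    ring
  have e4 : m.hor (z, w) ξ = m.S z ξ.1 := rfl
  rw [e4, real_inner_smul_left]
  simp only [smul_apply, add_apply,
    ContinuousLinearMap.comp_apply, ContinuousLinearMap.prod_apply, fderivInnerCLM_apply,
    ContinuousLinearMap.coe_fst', ContinuousLinearMap.coe_snd', Function.comp_apply,
    neg_apply, innerSL_apply_apply, smul_eq_mul, Pi.mul_apply]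
  rw [e3]
  have x0 := (exp_pos (b z)).ne'
  have t0 := ht.ne'
  field_simp
  ring

end TOUx

theorem sTOU : STOU := by
  intro m lg dX P _ A hF hG hH h ε F h0 F0 hN hS x z w hz w1
  obtain ⟨p, hp, g0, hu, hmax⟩ := hH.max x z w w1
  obtain ⟨E, hs, hn, hb, D, hD, hE⟩ := hS p z
  have n1 : ‖A.ν p z‖ = 1 := (hF.isb p).unit z
  have ht : 0 < ⟪A.ν p z, w⟫ := (mul_pos_iff_of_pos_left (exp_pos (A.β p z))).1 g0
  have t1 : ⟪A.ν p z, w⟫ ≤ 1 := by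
    have := real_inner_le_norm (A.ν p z) w
    rwa [n1, w1, mul_one] at this
  have ww : ⟪w, w⟫ = 1 := by rw [real_inner_self_eq_norm_sq, w1, one_pow]
  have up : ∀ r, A.pr r = x → exp (A.β r z) ≤ F := fun r hr => by
    have := exp_le_exp.2 (hz r hr)
    rwa [exp_log F0] at this
  have tF : 1 ≤ F ^ 2 * ⟪A.ν p z, w⟫ := by
    obtain ⟨p', hp', hw'⟩ := hG.onto x z w w1
    have a1 : exp (A.β p' z) * ⟪A.ν p' z, w⟫ ≤ exp (A.β p z) * ⟪A.ν p z, w⟫ := hmax p' hp'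
    rw [hw', ww, mul_one] at a1
    have a2 : 1 ≤ exp (A.β p' z) * exp (A.β (A.fl p') z) := by
      rw [← exp_add]
      exact one_le_exp (hG.opp p' z)
    have a3 := up (A.fl p') ((hF.flp p').1.trans hp')
    have a4 := mul_le_mul_of_nonneg_right (up p hp) ht.le
    have a5 := mul_le_mul (a1.trans a4) a3 (exp_pos _).le (mul_pos F0 ht).le
    nlinarith
  obtain ⟨L, hL, hLe⟩ := TOUx.der m (A.β p) (A.ν p) z w E D (hF.yw.ok.skew z) hs
    ((hF.b1 p).der z) hD hE ht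
  have x0 := (hb w).1
  have x1 := TOUx.form_le E h (A.ν p z) w hs hn hb n1 w1
  have x2 := TOUx.sq_le E h h0 hs hb w
  have x3 := hN _ _ tF t1 x0 x1
  have cg : ContinuousAt (gq (A.β p) (A.ν p)) (z, w) := by
    have c1 : ContinuousAt (fun q : V × V => A.β p q.1) (z, w) :=
      ContinuousAt.comp (f := Prod.fst) ((hF.b1 p).der z).continuousAt continuousAt_fst
    have c2 : ContinuousAt (fun q : V × V => A.ν p q.1) (z, w) :=
      ContinuousAt.comp (f := Prod.fst) hD.continuousAt continuousAt_fst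
    exact c1.rexp.mul (c2.inner continuousAt_snd)
  generalize hx : ⟪E w, w⟫ = y at x0 x1 x2 x3
  generalize hT : ⟪A.ν p z, w⟫ = t at ht t1 tF hLe x1 x3
  have t0 := ht.ne'
  refine ⟨fun q => log (gq (A.β p) (A.ν p) q), L, (1 + y) / t, t⁻¹ • (E w - y • w), hL, hu.symm,
    ?_, ?_, ?_, ?_, ?_, ?_⟩
  · filter_upwards [cg.eventually (lt_mem_nhds g0)] with q hq q1
    obtain ⟨r, -, -, hr, hm⟩ := hH.max x q.1 q.2 q1
    rw [hr]
    exact log_le_log hq (hm p hp)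
  · rw [le_div_iff₀ ht]
    linarith
  · change ⟪t⁻¹ • (E w - y • w), w⟫ = 0
    rw [real_inner_smul_left, inner_sub_left, real_inner_smul_left, hx, ww, mul_one, sub_self,
      mul_zero]
  · have e1 : ‖E w - y • w‖ ^ 2 = ‖E w‖ ^ 2 - y ^ 2 := by
      rw [norm_sub_sq_real, real_inner_smul_right, hx, norm_smul, w1, Real.norm_eq_abs, mul_one,
        sq_abs]
      ring
    have e2 : ε ^ 2 * ((1 + y) / t - 1) = t⁻¹ ^ 2 * (ε ^ 2 * t * (1 - t + y)) := by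
      field_simp
      ring
    rw [norm_smul, mul_pow, e1, Real.norm_eq_abs, sq_abs, e2]
    exact mul_le_mul_of_nonneg_left (by linarith) (sq_nonneg _)
  · intro hc
    rw [div_eq_one_iff_eq t0] at hc
    have e1 : ⟪A.ν p z, w⟫ = 1 := by rw [hT]; linarith
    exact ⟨p, hp, (inner_eq_one_iff_of_norm_eq_one n1 w1).1 e1, hmax⟩
  · intro ξ hξ
    have e1 : ((1 + y) / t) • w + t⁻¹ • (E w - y • w) = t⁻¹ • (w + E w) := by
      rw [div_eq_inv_mul]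
      module
    change L ξ = -⟪((1 + y) / t) • w + t⁻¹ • (E w - y • w), m.hor (z, w) ξ⟫
    rw [e1]
    exact hLe ξ hξ

end Pool.Agent.MP_3ee8cb_gt.DQ
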