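import Pool.Agent.MP_3ee8cb_gt.DZ.Spec

/-! Rigidity under an explicit pinching: definitions and statements of the blocks. -/

namespace Pool.Agent.MP_3ee8cb_gt.DQ

open Set Filter Topology MeasureTheory Real
open scoped RealInnerProductSpace

noncomputable section

/-! ### Two scalar inequalities -/

/-- The inequality behind the bound on the tangential part. -/
def Nu1 (h e F : ℝ) : Prop := ∀ t x : ℝ, 1 ≤ F ^ 2 * t → t ≤ 1 → 0 ≤ x → x ≤ h * (1 - t ^ 2) →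
  h * x - x ^ 2 ≤ e * t * (1 - t + x)

/-- The inequality behind the inward direction. -/
def Nu2 (F a k : ℝ) : Prop := ∀ x : ℝ, 0 ≤ x → x ≤ 1 → a * x ^ 2 - k ≤ x * log (F * x)

def SNUM1 : Prop := ∀ N : ℝ, 4 ≤ N → Nu1 (81 / (5 * N ^ 2)) (39 / (10 * N)) (107 / 200 * N)

def SNUM2 : Prop := ∀ N : ℝ, 4 ≤ N → Nu2 (53 / 100 * N) (97 / 100) (969 / (1000 * N))

open DN (Dim dm)

variable [Dim]

open DN DZ
open CR (Met UT)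

/-! ### The derivative of the direction to the centre -/

/-- The covariant derivative of `ν` at `z` is minus the projection minus `E`, `0 ≤ E ≤ h`. -/
def Hs (m : MF) (h : ℝ) (ν : V → V) (z : V) : Prop := ∃ E : V →L[ℝ] V,
  (∀ a b, ⟪E a, b⟫ = ⟪a, E b⟫) ∧ E (ν z) = 0 ∧ (∀ a, 0 ≤ ⟪E a, a⟫ ∧ ⟪E a, a⟫ ≤ h * ‖a‖ ^ 2) ∧
  ∃ D : V →L[ℝ] V, HasFDerivAt ν D z ∧ ∀ u, D u + m.om z u (ν z) =
    -(m.S z u - ⟪ν z, m.S z u⟫ • ν z + E (m.S z u))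

/-- Jacobi fields that vanish at time one. -/
def J2 (m : MF) (b : ℝ) : Prop := ∀ z ξ : V × V, z.2 ≠ 0 → m.J z ξ 1 = 0 →
  ⟪m.hor z ξ, z.2⟫ = 0 → ‖z.2‖ * ‖m.hor z ξ‖ ^ 2 ≤ -⟪m.ver z ξ, m.hor z ξ⟫ ∧
    -⟪m.ver z ξ, m.hor z ξ⟫ ≤ (b * ‖z.2‖ + 1) * ‖m.hor z ξ‖ ^ 2

def SJ2 : Prop := ∀ (m : MF) (b : ℝ), m.OK → m.Jac → 1 ≤ b → m.Up 1 → m.Dn (b ^ 2) → J2 m b

/-- The direction to a point. -/
def HD (m : MF) (lg : V × V → V) (b : ℝ) : Prop := ∀ y Q, y ≠ Q →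
  Hs m (b - 1 + ‖lg (y, Q)‖⁻¹) (fun z => un (lg (z, Q))) y

def SHD : Prop := ∀ m lg (b : ℝ), YW m lg → 1 ≤ b → J2 m b → HD m lg b

/-- Segments from one point diverge. -/
def TH (m : MF) (lg : V × V → V) : Prop := ∀ (Q a a' : V) (s : ℝ), 0 ≤ s → s ≤ 1 →
  ‖lg ((m.Z s (Q, a)).1, (m.Z s (Q, a')).1)‖ ≤ ‖lg ((m.Z 1 (Q, a)).1, (m.Z 1 (Q, a')).1)‖

def STH : Prop := ∀ m lg, YW m lg → TH m lg

/-- The direction to a far point of a ray is close to the direction to the centre. -/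
def AP (m : MF) (lg : V × V → V) (ν : V → V) : Prop := ∀ (z z' : V) (T : ℝ), 0 < T →
  2 * ‖lg (z, z')‖ ≤ T → ‖ν z' - un (lg (z', (m.Z T (z, ν z)).1))‖ ≤ 4 * ‖lg (z, z')‖ / T

def SAP : Prop := ∀ m lg β ν, YW m lg → TH m lg → IsB m lg β ν → B1 m lg β ν → AP m lg ν

def SHES : Prop := ∀ m lg (b : ℝ) β ν, YW m lg → 1 ≤ b → IsB m lg β ν → HD m lg b →
  AP m lg ν → ∀ z, Hs m (b - 1) ν z

/-! ### The support function -/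

/-- The infinitesimal two point function. -/
def gq (b : V → ℝ) (ν : V → V) (q : V × V) : ℝ := exp (b q.1) * ⟪ν q.1, q.2⟫

/-- The support function. -/
def uq {P : Type} (A : Fam P) (x z w : V) : ℝ :=
  log (sSup ((fun p => gq (A.β p) (A.ν p) (z, w)) '' {p | A.pr p = x}))

/-- The maximum is attained in the direction `w`. -/
def Tq {P : Type} (A : Fam P) (x z w : V) : Prop := ∃ p, A.pr p = x ∧ A.ν p z = w ∧
  ∀ p', A.pr p' = x → gq (A.β p') (A.ν p') (z, w) ≤ gq (A.β p) (A.ν p) (z, w)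

/-- More consequences of the axioms of a family. -/
structure BH {P : Type} [TopologicalSpace P] (A : Fam P) : Prop where
  cn : Continuous fun q : P × V => A.ν q.1 q.2
  nu : ∀ p p' k, (∀ z, A.β p' z = A.β p z + k) → ∀ z, A.ν p' z = A.ν p z
  gr2 : ∀ p q z, A.pr p = A.pr q →
    exp (A.β p z) * exp (A.β q z) * (1 - ⟪A.ν p z, A.ν q z⟫) ≤ 2
  max : ∀ x z w, ‖w‖ = 1 → ∃ p, A.pr p = x ∧ 0 < gq (A.β p) (A.ν p) (z, w) ∧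
    uq A x z w = log (gq (A.β p) (A.ν p) (z, w)) ∧
    ∀ p', A.pr p' = x → gq (A.β p') (A.ν p') (z, w) ≤ gq (A.β p) (A.ν p) (z, w)
  cu : ∀ x, ContinuousOn (fun q : V × V => uq A x q.1 q.2) {q | ‖q.2‖ = 1}

def SBH : Prop := OnB fun _ lg _ _ _ A => BG lg A → BH A

/-- A statement about a family with all consequences. -/
def OnH (Q : ∀ (_ : MF) (_ : V × V → V) (_ : V → V → ℝ) (P : Type) [TopologicalSpace P]
    (_ : Fam P), Prop) : Prop :=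
  OnB fun m lg dX P _ A => BG lg A → BH A → Q m lg dX P A

/-- `u` is touched from below at `p`. -/
def Tc (m : MF) (u : V × V → ℝ) (ε : ℝ) (Q : Prop) (p : V × V) : Prop :=
  ∃ (Φ : V × V → ℝ) (D : V × V →L[ℝ] ℝ) (c : ℝ) (ζ : V), HasFDerivAt Φ D p ∧ Φ p = u p ∧
    (∀ᶠ q in 𝓝 p, ‖q.2‖ = 1 → Φ q ≤ u q) ∧ 1 ≤ c ∧ ⟪ζ, p.2⟫ = 0 ∧
    ‖ζ‖ ^ 2 ≤ ε ^ 2 * (c - 1) ∧ (c = 1 → Q) ∧
    ∀ ξ, m.ver p ξ = 0 → D ξ = -⟪c • p.2 + ζ, m.hor p ξ⟫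

/-- `u` is Lipschitz in the point and the direction. -/
def Lz (dX : V → V → ℝ) (u : V → V → V → ℝ) : Prop := ∀ (x₀ : V) (R : ℝ), ∃ K, ∀ x,
  dX x₀ x ≤ 1 → LipschitzOnWith K (fun q : V × V => u x q.1 q.2) {q | ‖q.1‖ ≤ R ∧ ‖q.2‖ = 1}

/-- Outside the bounded set `C₀ x` the averaged field points inwards. -/
def Inw (lg : V × V → V) (u : V → V → V → ℝ) (C₀ : V → Set V) : Prop := ∀ x, ∃ (y : V) (ρ : ℝ),
  (∀ z ∈ C₀ x, ‖lg (y, z)‖ ≤ ρ) ∧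
    ∀ z, z ∉ C₀ x → ∃ e, 0 < ⟪VV u x z, e⟫ ∧ 0 ≤ ⟪lg (z, y), e⟫

def SLX : Prop := OnH fun m _ dX _ _ A =>
  (∀ x x' z w, ‖w‖ = 1 → |uq A x z w - uq A x' z w| ≤ dX x x') ∧
  (∀ R x (z : V × V), z.1 ∈ A.C R x → (m.Z 1 z).1 ∈ A.C R x →
    ∀ t ∈ Icc (0 : ℝ) 1, (m.Z t z).1 ∈ A.C R x) ∧
  ∀ R R' x x', dX x x' ≤ R - R' → A.C R' x' ⊆ A.C R x

def SLZ : Prop := OnH fun m _ dX _ _ A => ∀ h, 0 ≤ h → (∀ p z, Hs m h (A.ν p) z) → Lz dX (uq A)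

def STOU : Prop := OnH fun m _ _ _ _ A => ∀ h ε F, 0 ≤ h → 0 < F → Nu1 h (ε ^ 2) F →
  (∀ p z, Hs m h (A.ν p) z) → ∀ x z w, z ∈ A.C (log F) x → ‖w‖ = 1 →
    Tc m (fun q => uq A x q.1 q.2) ε (Tq A x z w) (z, w)

/-- The integral inequality behind the inward direction. -/
def Nu3 (F : ℝ) : Prop := ∀ e : V, ‖e‖ = 1 →
  0 < ∫ w, |⟪un w, e⟫| * log (F * |⟪un w, e⟫|) ∂mS

def S23 : Prop := MS → ∀ F a k : ℝ, 0 < F → Nu2 F a k → dm * k < a → Nu3 F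

def SINW : Prop := OnH fun _ lg _ _ _ A => MS → ∀ F, 2 ≤ F → Nu3 F →
  Inw lg (uq A) (A.C (log F))

/-- An abstract support function. -/
structure Sq (m : MF) (lg : V × V → V) (dX : V → V → ℝ) (ε : ℝ) (u : V → V → V → ℝ)
    (C C₀ : V → Set V) (Q : V → V → V → Prop) : Prop where
  lipx : ∀ x x' z w, ‖w‖ = 1 → |u x z w - u x' z w| ≤ dX x x'
  lipz : Lz dX u
  tou : ∀ x z w, z ∈ C x → ‖w‖ = 1 → Tc m (fun q => u x q.1 q.2) ε (Q x z w) (z, w)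
  cvx : ∀ x (z : V × V), z.1 ∈ C x → (m.Z 1 z).1 ∈ C x → ∀ t ∈ Icc (0 : ℝ) 1, (m.Z t z).1 ∈ C x
  nest : ∃ r, 0 < r ∧ ∀ x x', dX x x' ≤ r → C₀ x' ⊆ C x
  inw : Inw lg u C₀

/-! ### The zero of the averaged field and its Jacobian -/

structure Zq (lg : V × V → V) (dX : V → V → ℝ) (u : V → V → V → ℝ) (C C₀ : V → Set V)
    (f : V → V) : Prop where
  mem : ∀ x, f x ∈ C₀ x
  zero : ∀ x, VV u x (f x) = 0
  uniq : ∀ x z, z ∈ C x → VV u x z = 0 → z = f x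
  lip : ∃ r K, 0 < r ∧ 0 ≤ K ∧ ∀ x x', dX x x' ≤ r → ‖lg (f x, f x')‖ ≤ K * dX x x'

/-- A statement about a support function. -/
def OnT (R : MF → MF → (V × V → V) → (V → V → ℝ) → ℝ → (V → V → V → ℝ) → (V → Set V) →
    (V → Set V) → (V → V → V → Prop) → Prop) : Prop :=
  ∀ m₀ m lg dX (ε : ℝ) u C C₀ Q, MS → XW m₀ dX → YW m lg → dm * ε ^ 2 < 4 →
    Sq m lg dX ε u C C₀ Q → R m₀ m lg dX ε u C C₀ Q

def SZERO : Prop := OnT fun _ _ lg dX _ u C C₀ _ => ∃ f, Zq lg dX u C C₀ f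

def SFL : Prop := OnT fun _ _ lg dX _ u C C₀ _ => ∀ f, Zq lg dX u C C₀ f → LocallyLipschitz f

def SJA : Prop := OnT fun m₀ m lg dX ε u C C₀ Q => ∀ f, Zq lg dX u C C₀ f →
  LocallyLipschitz f → ∀ᵐ x, DifferentiableAt ℝ f x ∧ Fo ε (LL m₀ m f x) (Q x (f x))

def SJB : Prop := ∀ (ε : ℝ) (L : V →L[ℝ] V) (Q : V → Prop), MS → dm * ε ^ 2 < 4 →
  Fo ε L Q → |L.det| ≤ 1 ∧ (1 ≤ |L.det| → ∀ᵐ w ∂mS, Q (un w))

def SEND1 : Prop := OnH fun _ _ _ _ _ A => MS → ∀ x z,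
  (∀ᵐ w ∂mS, Tq A x z (un w)) → ∀ p, A.pr p = x → A.ft p = z

def SEQV : Prop := On2 fun g h _ C' Γ Λ _ _ _ _ _ Ψ ρ F => ∀ m lg ν O R R₀ f, MS →
  NB h C' Ψ m lg ν → Act m Λ O → R₀ ≤ R →
  Zq lg (CR.dd g) (uq (fam Ψ F ν)) ((fam Ψ F ν).C R) ((fam Ψ F ν).C R₀) f →
    ∀ (γ : Γ) x, f (γ • x) = ρ γ • f x

end

end Pool.Agent.MP_3ee8cb_gt.DQ
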