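import Pool.Agent.MP_3ee8cb_gt.DQ.Spec
import Pool.Agent.MP_3ee8cb_gt.DZ.RZERO

/-! The averaged field points inwards outside a bounded set. -/

namespace Pool.Agent.MP_3ee8cb_gt.DQ

open Set Filter Topology MeasureTheory Real
open scoped RealInnerProductSpace
open DN (Dim dm)

variable [Dim]

open DN DZ

namespace INWx

theorem cont {F : ℝ} (hF : 0 < F) (e : V) :
    Continuous fun w : V => |⟪w, e⟫| * log (F * |⟪w, e⟫|) := by
  have k : (fun w : V => |⟪w, e⟫| * log (F * |⟪w, e⟫|)) =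
      fun w : V => F⁻¹ * ((F * |⟪w, e⟫|) * log (F * |⟪w, e⟫|)) := by
    funext w
    field_simp
  rw [k]
  exact (continuous_mul_log.comp (f := fun w : V => F * |⟪w, e⟫|) (by fun_prop)).const_mul _

theorem refl {n w r : V} (hn : ‖n‖ = 1) (hw : ‖w‖ = 1) (hr : ‖r‖ = 1) :
    2 * ⟪w, n⟫ * ⟪r, -w⟫ ≤ 1 - ⟪n, r⟫ := by
  have h1 : ‖n - (2 * ⟪w, n⟫) • w‖ ^ 2 = 1 := by
    rw [norm_sub_sq_real, norm_smul, real_inner_smul_right, hn, hw, real_inner_comm w n,
      norm_eq_abs, mul_one, sq_abs]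
    ring
  have h2 : ‖n - (2 * ⟪w, n⟫) • w‖ = 1 :=
    (pow_eq_one_iff_of_nonneg (norm_nonneg _) two_ne_zero).1 h1
  have h3 := real_inner_le_norm r (n - (2 * ⟪w, n⟫) • w)
  rw [h2, hr, inner_sub_right, real_inner_smul_right, real_inner_comm n r] at h3
  rw [inner_neg_right]
  linarith

variable {m : MF} {lg : V × V → V} {dX : V → V → ℝ} {P : Type} [TopologicalSpace P] {A : Fam P}

theorem half (bf : BF m lg dX A) (bh : BH A) {F : ℝ} (hF : 0 < F) {p : P} {z w : V}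
    (hp : log F < A.β p z) (hw : ‖w‖ = 1) (h0 : 0 < ⟪w, A.ν p z⟫) :
    2 * log (F * ⟪w, A.ν p z⟫) ≤ uq A (A.pr p) z w - uq A (A.pr p) z (-w) := by
  have f0 : F ≤ exp (A.β p z) := ((log_lt_iff_lt_exp hF).1 hp).le
  obtain ⟨q, -, -, q3, q4⟩ := bh.max (A.pr p) z w hw
  obtain ⟨r, r1, r2, r3, -⟩ := bh.max (A.pr p) z (-w) (by rw [norm_neg, hw])
  have a0 := mul_pos hF h0
  have a1 : F * ⟪w, A.ν p z⟫ ≤ gq (A.β q) (A.ν q) (z, w) := by
    refine le_trans ?_ (q4 p rfl)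
    rw [gq, real_inner_comm w]
    exact mul_le_mul_of_nonneg_right f0 h0.le
  have a2 := bh.gr2 p r z r1.symm
  have a3 := refl ((bf.isb p).unit z) hw ((bf.isb r).unit z)
  have a4 : gq (A.β r) (A.ν r) (z, -w) * (exp (A.β p z) * ⟪w, A.ν p z⟫) ≤ 1 := by
    have := mul_le_mul_of_nonneg_left a3 (mul_pos (exp_pos (A.β p z)) (exp_pos (A.β r z))).le
    rw [gq]
    linarith
  have a5 : gq (A.β r) (A.ν r) (z, -w) * (F * ⟪w, A.ν p z⟫) ≤ 1 :=
    (mul_le_mul_of_nonneg_left (mul_le_mul_of_nonneg_right f0 h0.le) r2.le).trans a4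
  have a6 := log_nonpos (mul_pos r2 a0).le a5
  rw [log_mul r2.ne' a0.ne'] at a6
  have a7 := log_le_log a0 a1
  rw [q3, r3]
  linarith

theorem both (bf : BF m lg dX A) (bh : BH A) {F : ℝ} (hF : 0 < F) {p : P} {z w : V}
    (hp : log F < A.β p z) (hw : ‖w‖ = 1) :
    2 * (|⟪w, A.ν p z⟫| * log (F * |⟪w, A.ν p z⟫|)) ≤
      uq A (A.pr p) z w * ⟪w, A.ν p z⟫ - uq A (A.pr p) z (-w) * ⟪w, A.ν p z⟫ := by
  rcases lt_trichotomy 0 ⟪w, A.ν p z⟫ with h | h | h
  · have := mul_le_mul_of_nonneg_right (half bf bh hF hp hw h) h.le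
    rw [abs_of_pos h]
    linarith
  · rw [← h]
    simp
  · have k : 0 < ⟪-w, A.ν p z⟫ := by rw [inner_neg_left]; linarith
    have := mul_le_mul_of_nonneg_right (half bf bh hF hp (by rw [norm_neg, hw]) k) k.le
    rw [neg_neg, inner_neg_left] at this
    rw [abs_of_neg h]
    linarith

theorem back (bf : BF m lg dX A) {p : P} {z y : V} (h : A.β p y < A.β p z) :
    0 ≤ ⟪lg (z, y), A.ν p z⟫ := by
  by_contra k
  rw [not_le] at k
  have ne : lg (z, y) ≠ 0 := fun e => by simp [e] at k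
  have L : 0 < ‖lg (z, y)‖ := norm_pos_iff.2 ne
  have a1 := (bf.isb p).lb z (‖lg (z, y)‖⁻¹ • lg (z, y)) ‖lg (z, y)‖ (norm_smul_inv_norm ne)
  have a2 := bf.yw.jac.scale 1 ‖lg (z, y)‖ z (‖lg (z, y)‖⁻¹ • lg (z, y))
  rw [smul_inv_smul₀ L.ne', mul_one] at a2
  have a3 := bf.yw.had.ex z y
  rw [a2] at a3
  simp only at a3
  rw [a3, real_inner_smul_right, real_inner_comm] at a1
  have a4 : ‖lg (z, y)‖⁻¹ * ⟪lg (z, y), A.ν p z⟫ * sinh ‖lg (z, y)‖ ≤ 0 :=
    mul_nonpos_of_nonpos_of_nonneg (mul_nonpos_of_nonneg_of_nonpos (inv_nonneg.2 L.le) k.le)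
      (sinh_nonneg_iff.2 L.le)
  have a5 := one_le_cosh ‖lg (z, y)‖
  have a6 := mul_le_mul_of_nonneg_left (show 1 ≤ cosh ‖lg (z, y)‖ -
    ‖lg (z, y)‖⁻¹ * ⟪lg (z, y), A.ν p z⟫ * sinh ‖lg (z, y)‖ by linarith) (exp_pos (A.β p z)).le
  have a7 := exp_lt_exp.2 h
  linarith

end INWx

open INWx

theorem s23 : S23 := by
  intro ms F a k hF h2 hk e he
  have rt := ms.rot'
  have := ms.fin
  have i1 := rt.int (f := fun w => ⟪w, e⟫ ^ 2) (by fun_prop)
  have i2 := rt.int (cont hF e).continuousOn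
  have a1 := integral_mono_ae ((i1.const_mul a).sub (integrable_const k)) i2
    (rt.ne.mono fun w hw => by
      have b1 := abs_real_inner_le_norm (‖w‖⁻¹ • w) e
      rw [DZZ.nrm hw, he, one_mul] at b1
      have b2 := h2 _ (abs_nonneg _) b1
      rwa [sq_abs] at b2)
  simp only [Pi.sub_apply] at a1
  rw [integral_sub (i1.const_mul a) (integrable_const k), integral_const_mul, rt.sq, he,
    integral_const, rt.mass, smul_eq_mul] at a1
  refine lt_of_lt_of_le ?_ a1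
  linarith

theorem sINW : SINW := by
  intro m lg dX P _ A bf bg bh ms F hF h3 x
  have rt := ms.rot'
  have F0 : 0 < F := by linarith
  obtain ⟨q, q1, -⟩ := bg.onto x 0 (EuclideanSpace.single 0 1) (by simp)
  refine ⟨A.ft q, log F + 1, fun z hz => bg.near q z _ (q1 ▸ hz), fun z hz => ?_⟩
  obtain ⟨p, p1, p2⟩ : ∃ p, A.pr p = x ∧ log F < A.β p z := by
    by_contra k
    exact hz fun p hp => not_lt.1 fun h => k ⟨p, hp, h⟩
  refine ⟨A.ν p z, ?_, back bf ?_⟩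
  · subst p1
    obtain ⟨a1, a2⟩ := DZZ.av_inner rt (bh.cu (A.pr p)) z (A.ν p z) (.refl ℝ V)
    obtain ⟨b1, b2⟩ := DZZ.av_inner rt (bh.cu (A.pr p)) z (A.ν p z) (.neg ℝ)
    simp only [LinearIsometryEquiv.coe_refl, id_eq] at a1 a2
    simp only [LinearIsometryEquiv.coe_neg, inner_neg_right] at b1 b2
    have c := integral_mono_ae ((rt.int (cont F0 (A.ν p z)).continuousOn).const_mul 2) (a1.sub b1)
      (rt.ne.mono fun w hw => both bf bh F0 p2 (DZZ.nrm hw))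
    simp only [Pi.sub_apply] at c
    rw [integral_sub a1 b1, ← a2, ← b2, integral_const_mul] at c
    have d := h3 _ ((bf.isb p).unit z)
    change 0 < ⟪DZZ.av mS (fun q : V × V => uq A (A.pr p) q.1 q.2) z, A.ν p z⟫
    simp only [un] at d
    linarith
  · exact ((bg.two p q (p1.trans q1.symm)).trans (log_le_log two_pos hF)).trans_lt p2

end Pool.Agent.MP_3ee8cb_gt.DQ
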