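import Pool.Agent.MP_3ee8cb_gt.DQ.Spec

/-! The support function is Lipschitz in the point and in the direction. -/

namespace Pool.Agent.MP_3ee8cb_gt.DQ

open DN (Dim dm)

variable [Dim]

open Set Filter Topology Real DN DZ Metric
open scoped RealInnerProductSpace

namespace LZx

omit [Dim] in
theorem ex_lip {a b M : ℝ} (ha : a ≤ M) : exp a - exp b ≤ exp M * |a - b| := by
  have h1 := add_one_le_exp (b - a)
  have h2 : exp b = exp a * exp (b - a) := by rw [← exp_add, add_sub_cancel]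
  have h3 := exp_le_exp.2 ha
  have h4 := exp_pos a
  have h5 := le_abs_self (a - b)
  have h6 := abs_nonneg (a - b)
  nlinarith [mul_le_mul_of_nonneg_left h1 h4.le, mul_le_mul_of_nonneg_left h5 h4.le,
    mul_le_mul_of_nonneg_right h3 h6]

omit [Dim] in
theorem ex_abs {a b M : ℝ} (ha : a ≤ M) (hb : b ≤ M) : |exp a - exp b| ≤ exp M * |a - b| := by
  have h1 := ex_lip (b := b) ha
  have h2 := ex_lip (b := a) hb
  rw [abs_sub_comm b a] at h2
  exact abs_le.2 ⟨by linarith, h1⟩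

omit [Dim] in
theorem lg_lip {a b c d : ℝ} (hc : 0 < c) (ha : c ≤ a) (hb : c ≤ b) (hd : 0 ≤ d)
    (h : a ≤ b + d) : log a ≤ log b + c⁻¹ * d := by
  have b0 : 0 < b := hc.trans_le hb
  have h1 := log_le_sub_one_of_pos (div_pos (hc.trans_le ha) b0)
  rw [log_div (hc.trans_le ha).ne' b0.ne'] at h1
  have h2 : a / b - 1 ≤ b⁻¹ * d := by
    rw [div_sub_one b0.ne', div_eq_inv_mul]
    exact mul_le_mul_of_nonneg_left (by linarith) (inv_pos.2 b0).le
  have h3 := mul_le_mul_of_nonneg_right (inv_anti₀ hc hb) hd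
  linarith

/-- The norm of a bounded nonnegative symmetric operator. -/
theorem opn {E : V →L[ℝ] V} {h : ℝ} (h0 : 0 ≤ h) (s : ∀ a b, ⟪E a, b⟫ = ⟪a, E b⟫)
    (p : ∀ a, 0 ≤ ⟪E a, a⟫ ∧ ⟪E a, a⟫ ≤ h * ‖a‖ ^ 2) (a : V) : ‖E a‖ ≤ (h + 1) * ‖a‖ := by
  have h1 := (p ((h + 1) • a + E a)).2
  have h2 := (p ((h + 1) • a - E a)).1
  have h3 : ‖(h + 1) • a + E a‖ ^ 2 ≤ 2 * (((h + 1) * ‖a‖) ^ 2 + ‖E a‖ ^ 2) := by
    have k := norm_add_le ((h + 1) • a) (E a)
    rw [norm_smul, Real.norm_of_nonneg (by linarith)] at k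
    have k2 := pow_le_pow_left₀ (norm_nonneg _) k 2
    nlinarith [sq_nonneg ((h + 1) * ‖a‖ - ‖E a‖)]
  have h4 : ⟪E (E a), a⟫ = ‖E a‖ ^ 2 := by rw [s, real_inner_self_eq_norm_sq]
  simp only [map_add, map_sub, map_smul, inner_add_left, inner_add_right, inner_sub_left,
    inner_sub_right, real_inner_smul_left, real_inner_smul_right, h4,
    real_inner_self_eq_norm_sq] at h1 h2
  have h5 := mul_le_mul_of_nonneg_left h3 h0
  refine (pow_le_pow_iff_left₀ (norm_nonneg _) (by positivity) two_ne_zero).1 ?_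
  by_contra hc
  have h6 := mul_le_mul_of_nonneg_left (not_le.1 hc).le h0
  nlinarith [sq_nonneg ((h + 1) * ‖a‖), not_le.1 hc]

variable {m : MF} {lg : V × V → V} {dX : V → V → ℝ} {P : Type} [TopologicalSpace P] {A : Fam P}

/-- A uniform bound on balls. -/
theorem bdd (h : BF m lg dX A) (x₀ : V) (R : ℝ) : ∃ M, ∀ p, dX x₀ (A.pr p) ≤ 1 →
    ∀ y, ‖y‖ ≤ R → |A.β p y| ≤ M := by
  obtain ⟨M, hM⟩ := ((h.cpt x₀).prod (isCompact_closedBall (0 : V) R)).exists_bound_of_continuousOn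
    h.cont.continuousOn
  refine ⟨M + 1, fun p hp y hy => ?_⟩
  obtain ⟨p', k, e, hk⟩ := h.mov p x₀
  have h1 := h.lip p' p (-k) fun z => by rw [hk]; ring
  have h2 := hM (p', y) ⟨e, by simpa using hy⟩
  rw [e, abs_neg] at h1
  rw [Real.norm_eq_abs, hk] at h2
  have := abs_sub (A.β p y + k) k
  rw [add_sub_cancel_right] at this
  linarith

/-- The derivative of the direction is bounded. -/
theorem dnu {h B : ℝ} (h0 : 0 ≤ h) {ν : V → V} {z : V} (u1 : ‖ν z‖ = 1) (H : Hs m h ν z)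
    (b1 : ‖m.S z‖ ≤ B) (b2 : ‖m.om z‖ ≤ B) :
    DifferentiableAt ℝ ν z ∧ ‖fderiv ℝ ν z‖ ≤ (h + 4) * B := by
  obtain ⟨E, s, -, p, D, hD, e⟩ := H
  have B0 : 0 ≤ B := (norm_nonneg _).trans b1
  refine ⟨hD.differentiableAt, ?_⟩
  rw [hD.fderiv]
  refine ContinuousLinearMap.opNorm_le_bound _ (by positivity) fun u => ?_
  have k1 : ‖m.S z u‖ ≤ B * ‖u‖ := (m.S z).le_of_opNorm_le b1 u
  have k2 : ‖m.om z u (ν z)‖ ≤ B * ‖u‖ := by
    have := (m.om z u).le_opNorm (ν z)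
    rw [u1, mul_one] at this
    exact this.trans ((m.om z).le_of_opNorm_le b2 u)
  have k3 : ‖⟪ν z, m.S z u⟫ • ν z‖ ≤ ‖m.S z u‖ := by
    have := abs_real_inner_le_norm (ν z) (m.S z u)
    rwa [norm_smul, u1, mul_one, Real.norm_eq_abs, ← one_mul ‖m.S z u‖, ← u1]
  have k4 := (opn h0 s p (m.S z u)).trans (mul_le_mul_of_nonneg_left k1 (by linarith))
  have k5 := norm_sub_le (D u + m.om z u (ν z)) (m.om z u (ν z))
  rw [add_sub_cancel_right, e, norm_neg] at k5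
  have k6 := norm_add_le (m.S z u - ⟪ν z, m.S z u⟫ • ν z) (E (m.S z u))
  have k7 := norm_sub_le (m.S z u) (⟪ν z, m.S z u⟫ • ν z)
  nlinarith

/-- Uniform Lipschitz bounds on balls. -/
theorem lips (hb : BF m lg dX A) {h : ℝ} (h0 : 0 ≤ h) (H : ∀ p z, Hs m h (A.ν p) z) (R : ℝ) :
    ∃ K, 0 ≤ K ∧ ∀ p z z', ‖z‖ ≤ R → ‖z'‖ ≤ R →
      |A.β p z - A.β p z'| ≤ K * ‖z - z'‖ ∧ ‖A.ν p z - A.ν p z'‖ ≤ K * ‖z - z'‖ := by
  have c := isCompact_closedBall (0 : V) R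
  obtain ⟨B1, h1⟩ := c.exists_bound_of_continuousOn hb.yw.ok.cS.continuous.continuousOn
  have co : Continuous fun y => ‖m.om y‖ :=
    (continuous_norm (E := V →L[ℝ] V →L[ℝ] V)).comp hb.yw.ok.com.continuous
  obtain ⟨B2, h3⟩ := c.bddAbove_image co.continuousOn
  have h2 : ∀ y ∈ closedBall (0 : V) R, ‖m.om y‖ ≤ B2 := fun y hy => h3 ⟨y, hy, rfl⟩
  have B0 : 0 ≤ max (max B1 B2) 0 := le_max_right _ _
  have l1 : B1 ≤ max (max B1 B2) 0 := (le_max_left _ _).trans (le_max_left _ _)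
  have l2 : B2 ≤ max (max B1 B2) 0 := (le_max_right _ _).trans (le_max_left _ _)
  generalize max (max B1 B2) 0 = B at B0 l1 l2
  refine ⟨(h + 4) * B, by positivity, fun p z z' a a' => ⟨?_, ?_⟩⟩
  · rw [← Real.norm_eq_abs]
    refine (convex_closedBall (0 : V) R).norm_image_sub_le_of_norm_fderiv_le (𝕜 := ℝ)
      (fun y _ => ((hb.b1 p).der y).differentiableAt) (fun y hy => ?_) (by simpa using a')
      (by simpa using a)
    rw [((hb.b1 p).der y).fderiv, norm_neg]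
    have k := (innerSL ℝ (A.ν p y)).opNorm_comp_le (m.S y)
    rw [innerSL_apply_norm, (hb.isb p).unit, one_mul] at k
    have := h1 y hy
    nlinarith [mul_nonneg h0 B0]
  · have d := fun y (hy : y ∈ closedBall (0 : V) R) =>
      dnu h0 ((hb.isb p).unit y) (H p y) ((h1 y hy).trans l1) ((h2 y hy).trans l2)
    exact (convex_closedBall (0 : V) R).norm_image_sub_le_of_norm_fderiv_le (𝕜 := ℝ)
      (fun y hy => (d y hy).1) (fun y hy => (d y hy).2) (by simpa using a') (by simpa using a)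

end LZx

open LZx

theorem sLZ : SLZ := by
  intro m lg dX P _ A hb g hh h h0 H x₀ R
  obtain ⟨K, K0, hK⟩ := lips hb h0 H R
  obtain ⟨M, hM⟩ := bdd hb x₀ R
  refine ⟨_, fun x hx => LipschitzOnWith.of_le_add_mul'
    ((exp (-M))⁻¹ * (exp M * (2 * K + 1))) fun q hq q' hq' => ?_⟩
  obtain ⟨p, e, -, e1, m1⟩ := hh.max x q.1 q.2 hq.2
  obtain ⟨p', -, -, e2, m2⟩ := hh.max x q'.1 q'.2 hq'.2
  have lo : ∀ q : V × V, ‖q.1‖ ≤ R ∧ ‖q.2‖ = 1 → ∃ r, A.pr r = x ∧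
      exp (-M) ≤ gq (A.β r) (A.ν r) (q.1, q.2) := fun q a => by
    obtain ⟨r, e, hν⟩ := g.onto x q.1 q.2 a.2
    refine ⟨r, e, ?_⟩
    simp only [gq, hν, real_inner_self_eq_norm_sq, a.2, one_pow, mul_one]
    exact exp_le_exp.2 (neg_le_of_abs_le (hM r (e ▸ hx) q.1 a.1))
  obtain ⟨r, f1, l1⟩ := lo q hq
  obtain ⟨r', f2, l2⟩ := lo q' hq'
  rw [e1, e2, mul_assoc]
  refine lg_lip (exp_pos _) (l1.trans (m1 r f1)) (l2.trans (m2 r' f2)) (by positivity) ?_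
  refine le_trans ?_ (add_le_add_left (m2 p e) _)
  have d1 : ‖q.1 - q'.1‖ ≤ dist q q' := by
    rw [← dist_eq_norm, Prod.dist_eq]
    exact le_max_left _ _
  have d2 : ‖q.2 - q'.2‖ ≤ dist q q' := by
    rw [← dist_eq_norm, Prod.dist_eq]
    exact le_max_right _ _
  obtain ⟨k1, k2⟩ := hK p q.1 q'.1 hq.1 hq'.1
  have k3 := mul_le_mul_of_nonneg_left d1 K0
  have b1 := le_of_abs_le (hM p (e ▸ hx) q.1 hq.1)
  have b2 := le_of_abs_le (hM p (e ▸ hx) q'.1 hq'.1)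
  have x1 := (ex_abs b1 b2).trans (mul_le_mul_of_nonneg_left (k1.trans k3) (exp_pos M).le)
  have i1 := abs_real_inner_le_norm (A.ν p q.1) q.2
  have i2 := real_inner_le_norm (A.ν p q.1 - A.ν p q'.1) q.2
  have i3 := real_inner_le_norm (A.ν p q'.1) (q.2 - q'.2)
  rw [(hb.isb p).unit, hq.2, mul_one] at i1
  rw [inner_sub_left, hq.2, mul_one] at i2
  rw [inner_sub_right, (hb.isb p).unit, one_mul] at i3
  have j1 : (exp (A.β p q.1) - exp (A.β p q'.1)) * ⟪A.ν p q.1, q.2⟫ ≤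
      exp M * (K * dist q q') := by
    refine (le_abs_self _).trans ?_
    rw [abs_mul]
    exact (mul_le_of_le_one_right (abs_nonneg _) i1).trans x1
  have j2 : exp (A.β p q'.1) * (⟪A.ν p q.1, q.2⟫ - ⟪A.ν p q'.1, q'.2⟫) ≤
      exp M * ((K + 1) * dist q q') :=
    (mul_le_mul_of_nonneg_left (by linarith) (exp_pos _).le).trans
      (mul_le_mul_of_nonneg_right (exp_le_exp.2 b2) (by positivity))
  simp only [gq]
  linarith

end Pool.Agent.MP_3ee8cb_gt.DQ
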