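import Pool.Agent.MP_3ee8cb_gt.DQ.Spec
import Pool.Agent.MP_3ee8cb_gt.DNWI.Base

/-! Thin triangles, and the direction to a far point of a ray. -/

namespace Pool.Agent.MP_3ee8cb_gt.DQ

open DN (Dim dm)

variable [Dim]

open DN DZ DNWI Set Filter Topology
open scoped RealInnerProductSpace

namespace APx

variable {m : MF} {lg : V × V → V}

theorem cn (ho : m.OK) (hj : m.Jac) (hl : m.Had lg) (z : V × V) (p : V) {s : ℝ} (h0 : 0 ≤ s)
    (h1 : s ≤ 1) : ‖lg ((m.Z s z).1, p)‖ ^ 2 ≤ (1 - s) * ‖lg (p, z.1)‖ ^ 2 +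
      s * ‖lg (p, (m.Z 1 z).1)‖ ^ 2 - s * (1 - s) * ‖z.2‖ ^ 2 := by
  have a0 := hinge' hl (m.Z s z).1 p (m.Z 0 z).1
  have a1 := hinge' hl (m.Z s z).1 p (m.Z 1 z).1
  rw [lg_geo ho hj hl] at a0 a1
  rw [ho.zero] at a0
  have b0 := pow_le_pow_left₀ (norm_nonneg _) a0 2
  have b1 := pow_le_pow_left₀ (norm_nonneg _) a1 2
  rw [norm_sub_sq_real, real_inner_smul_right, norm_smul, mul_pow, Real.norm_eq_abs, sq_abs,
    hj.norm] at b0 b1
  have c0 := mul_le_mul_of_nonneg_left b0 (sub_nonneg.2 h1)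
  have c1 := mul_le_mul_of_nonneg_left b1 h0
  nlinarith

theorem thin (ho : m.OK) (hj : m.Jac) (hl : m.Had lg) (x a b : V) {s : ℝ} (h0 : 0 ≤ s)
    (h1 : s ≤ 1) : ‖lg ((m.Z s (x, a)).1, (m.Z s (x, b)).1)‖ ≤
      s * ‖lg ((m.Z 1 (x, a)).1, (m.Z 1 (x, b)).1)‖ := by
  have a0 := cn ho hj hl (x, a) (m.Z s (x, b)).1 h0 h1
  have a1 := cn ho hj hl (x, b) (m.Z 1 (x, a)).1 h0 h1
  have e0 := dist_geo ho hj hl (x, b) s 0
  have e1 := dist_geo ho hj hl (x, a) 1 0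
  rw [ho.zero] at e0 e1
  rw [zero_sub, abs_neg, abs_of_nonneg h0] at e0
  rw [zero_sub, abs_neg, abs_one, one_mul] at e1
  simp only at a0 a1 e0 e1
  rw [e0] at a0
  rw [e1] at a1
  refine (pow_le_pow_iff_left₀ (norm_nonneg _) (by positivity) two_ne_zero).1 ?_
  have c1 := mul_le_mul_of_nonneg_left a1 h0
  nlinarith

theorem un_smul {r : ℝ} (hr : 0 < r) (x : V) : un (r • x) = un x := by
  unfold un
  rw [norm_smul, Real.norm_eq_abs, abs_of_pos hr, smul_smul, mul_inv, mul_comm r⁻¹, mul_assoc,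
    inv_mul_cancel₀ hr.ne', mul_one]

theorem un_sub (x : V) {y : V} (hy : 0 < ‖y‖) : ‖un x - un y‖ ≤ 2 * ‖x - y‖ / ‖y‖ := by
  have e : un x - un y = (‖x‖⁻¹ - ‖y‖⁻¹) • x + ‖y‖⁻¹ • (x - y) := by
    unfold un
    rw [sub_smul, smul_sub]
    abel
  have h2 : ‖‖y‖⁻¹ • (x - y)‖ = ‖x - y‖ / ‖y‖ := by
    rw [norm_smul, norm_inv, norm_norm, div_eq_inv_mul]
  have h1 : ‖(‖x‖⁻¹ - ‖y‖⁻¹) • x‖ ≤ ‖x - y‖ / ‖y‖ := by
    by_cases hx : x = 0
    · rw [hx, smul_zero, norm_zero]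
      positivity
    · have hx' : 0 < ‖x‖ := norm_pos_iff.2 hx
      have e2 : (‖x‖⁻¹ - ‖y‖⁻¹) * ‖x‖ = (‖y‖ - ‖x‖) / ‖y‖ := by field_simp
      rw [norm_smul, Real.norm_eq_abs, ← abs_of_pos hx', ← abs_mul, abs_of_pos hx', e2, abs_div,
        abs_of_pos hy, abs_sub_comm]
      exact div_le_div_of_nonneg_right (abs_norm_sub_norm_le x y) hy.le
  rw [e, mul_div_assoc]
  linarith [norm_add_le ((‖x‖⁻¹ - ‖y‖⁻¹) • x) (‖y‖⁻¹ • (x - y))]

end APx

open APx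

theorem sTH : STH := by
  intro m lg Y Q a a' s h0 h1
  refine (thin Y.ok Y.jac Y.had Q a a' h0 h1).trans ?_
  exact mul_le_of_le_one_left (norm_nonneg _) h1

theorem sAP : SAP := by
  intro m lg β ν Y hT hB h1 z z' T hp hd
  have ho := Y.ok
  have hj := Y.jac
  have hl := Y.had
  have eT : ‖lg (z, (m.Z T (z, ν z)).1)‖ = T := by
    have := lg_ray hj hl T (z, ν z)
    simp only at this
    rw [this, norm_smul, hB.unit, mul_one, Real.norm_eq_abs, abs_of_pos hp]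
  have hy : T / 2 ≤ ‖lg (z', (m.Z T (z, ν z)).1)‖ := by
    linarith [hl.tri z z' (m.Z T (z, ν z)).1]
  have hy0 : 0 < ‖lg (z', (m.Z T (z, ν z)).1)‖ := by linarith
  have key : ∀ S, T < S → ‖un (lg (z', (m.Z S (z, ν z)).1)) - un (lg (z', (m.Z T (z, ν z)).1))‖ ≤
      4 * ‖lg (z, z')‖ / T := by
    intro S hS
    have S0 : 0 < S := by linarith
    have s0 : 0 ≤ (S - T) / S := div_nonneg (by linarith) S0.le
    have s1 : (S - T) / S < 1 := (div_lt_one S0).2 (by linarith)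
    have t1 := hT (m.Z S (z, ν z)).1 (lg ((m.Z S (z, ν z)).1, z)) (lg ((m.Z S (z, ν z)).1, z'))
      _ s0 s1.le
    rw [hl.ex, hl.ex] at t1
    have e1 : lg ((m.Z S (z, ν z)).1, z) = (0 - S) • (m.Z S (z, ν z)).2 := by
      have := lg_geo ho hj hl (z, ν z) S 0
      rwa [ho.zero] at this
    have e2 : (m.Z ((S - T) / S) ((m.Z S (z, ν z)).1, lg ((m.Z S (z, ν z)).1, z))).1 =
        (m.Z T (z, ν z)).1 := by
      rw [e1, hj.scale, ← ho.add, show (0 - S) * ((S - T) / S) + S = T by field_simp; ring]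
    rw [e2] at t1
    have e3 := lg_geo ho hj hl ((m.Z S (z, ν z)).1, lg ((m.Z S (z, ν z)).1, z')) 1 ((S - T) / S)
    rw [hl.ex, ← neg_neg (m.Z 1 _).2, ← hl.rev, smul_neg, ← neg_smul, neg_sub] at e3
    rw [← un_smul (sub_pos.2 s1) (lg (z', (m.Z S (z, ν z)).1)), ← e3]
    refine (un_sub _ hy0).trans ?_
    have t2 := (hinge' hl z' _ _).trans ((lg_symm hj hl _ _).le.trans t1)
    rw [div_le_div_iff₀ hy0 hp]
    have := norm_nonneg (lg (z, z'))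
    nlinarith
  have lim := ((h1.dir z z').sub_const (un (lg (z', (m.Z T (z, ν z)).1)))).norm
  exact le_of_tendsto lim ((eventually_gt_atTop T).mono key)

end Pool.Agent.MP_3ee8cb_gt.DQ
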