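import Pool.Agent.MP_3ee8cb_gt.DQ.Spec
import Pool.Agent.MP_3ee8cb_gt.DZ.RB1

/-! More consequences of the properties of a family of Busemann functions. -/

namespace Pool.Agent.MP_3ee8cb_gt.DQ

open DN (Dim dm)

variable [Dim]

open Set Filter Topology Real DN DZ
open scoped RealInnerProductSpace

namespace BHx

variable {m : MF} {lg : V × V → V} {dX : V → V → ℝ} {P : Type} [TopologicalSpace P] {A : Fam P}

theorem cn (F : BF m lg dX A) : Continuous fun q : P × V => A.ν q.1 q.2 := by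
  refine continuous_iff_continuousAt.2 fun q₀ => ?_
  obtain ⟨n, hn⟩ : ∃ n, A.ν q₀.1 q₀.2 = n := ⟨_, rfl⟩
  have hu : ‖n‖ = 1 := hn ▸ (F.isb _).unit _
  have s1 : 0 < sinh (1 : ℝ) := sinh_pos_iff.2 one_pos
  have cZ : Continuous fun q : P × V => (m.Z 1 (q.2, n)).1 :=
    (F.yw.ok.cZ.continuous.comp
      (continuous_const.prodMk (continuous_snd.prodMk continuous_const))).fst
  have c1 : Continuous fun q : P × V => A.β q.1 (m.Z 1 (q.2, n)).1 :=
    F.cont.comp (continuous_fst.prodMk cZ)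
  have c2 : Continuous fun q : P × V =>
      √(2 * (exp (A.β q.1 (m.Z 1 (q.2, n)).1 - A.β q.1 q.2) - exp (-1)) / sinh 1) :=
    (((((c1.sub F.cont).rexp).sub continuous_const).const_mul 2).div_const _).sqrt
  have c3 := c2.tendsto q₀
  have e : A.β q₀.1 (m.Z 1 (q₀.2, n)).1 - A.β q₀.1 q₀.2 = -1 := by
    rw [← hn, (F.isb _).ray]
    ring
  simp only [e, sub_self, mul_zero, zero_div, sqrt_zero] at c3
  change Tendsto _ _ (𝓝 (A.ν q₀.1 q₀.2))
  rw [hn, tendsto_iff_norm_sub_tendsto_zero]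
  refine squeeze_zero (fun _ => norm_nonneg _) (fun q => ?_) c3
  refine le_sqrt_of_sq_le ?_
  rw [le_div_iff₀ s1, norm_sub_rev]
  exact RB1.ang (F.isb q.1) q.2 n 1 hu

theorem nu (F : BF m lg dX A) (p p' : P) (k : ℝ) (h : ∀ z, A.β p' z = A.β p z + k) (z : V) :
    A.ν p' z = A.ν p z := by
  refine (F.b1 p').eq z _ ((F.isb p).unit z) (le_of_eq ?_)
  rw [h, h, (F.isb p).ray]
  ring

theorem gr1 (F : BF m lg dX A) (p q : P) (z : V) (h : A.pr p = A.pr q) {e : ℝ} (he : 0 < e) :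
    exp (A.β p z) * exp (A.β q z) * (1 - ⟪A.ν p z, A.ν q z⟫) ≤ 2 * exp e := by
  have d := (F.b1 q).dir (A.ft q) z
  have l := (F.b1 q).lim (A.ft q) z
  have g := F.gr p q h e he
  rw [F.foot, sub_zero] at l
  generalize A.ν q (A.ft q) = n at d l g
  have t2 : Tendsto (fun T : ℝ => exp (-T)) atTop (𝓝 0) := tendsto_exp_neg_atTop_nhds_zero
  have t3 := (l.rexp.sub ((l.neg.rexp.mul t2).mul t2)).const_mul (exp (A.β p z))
  have t4 := t3.mul ((tendsto_const_nhds (x := (1 : ℝ))).sub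
    ((tendsto_const_nhds (x := A.ν p z)).inner (𝕜 := ℝ) d))
  rw [mul_zero, sub_zero] at t4
  refine le_of_tendsto t4 ?_
  filter_upwards [g, l.eventually (lt_mem_nhds (sub_one_lt (A.β q z))),
    eventually_ge_atTop (1 - A.β q z)] with T g1 l1 hT
  generalize (m.Z T (A.ft q, n)).1 = c at g1 l1 ⊢
  have hn : 0 < ‖lg (z, c)‖ := by linarith
  have hu : ‖un (lg (z, c))‖ = 1 := by
    rw [un, norm_smul, norm_inv, norm_norm, inv_mul_cancel₀ hn.ne']
  have b := (F.isb p).lb z _ ‖lg (z, c)‖ hu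
  have e1 : (m.Z ‖lg (z, c)‖ (z, un (lg (z, c)))).1 = c := by
    rw [un, F.yw.jac.scale, inv_mul_cancel₀ hn.ne']
    exact F.yw.had.ex z c
  rw [e1] at b
  generalize ‖lg (z, c)‖ = L at b ⊢
  generalize ⟪A.ν p z, un (lg (z, c))⟫ = a at b ⊢
  have b1 : exp (A.β p z) * (sinh L - a * sinh L) ≤ exp (T + e) :=
    ((mul_le_mul_of_nonneg_left (by linarith [sinh_lt_cosh L]) (exp_pos _).le).trans b).trans
      (exp_le_exp.2 g1)
  have e2 : exp (L - T) - exp (-(L - T)) * exp (-T) * exp (-T) = 2 * sinh L * exp (-T) := by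
    rw [sinh_eq, ← exp_add, ← exp_add, sub_eq_add_neg L T, exp_add L (-T),
      show -(L + -T) + -T + -T = -L + -T by ring, exp_add]
    ring
  have e3 : exp e = exp (T + e) * exp (-T) := by
    rw [← exp_add]
    ring_nf
  rw [e2, e3]
  nlinarith [mul_le_mul_of_nonneg_right b1 (exp_pos (-T)).le]

theorem gr2 (F : BF m lg dX A) (p q : P) (z : V) (h : A.pr p = A.pr q) :
    exp (A.β p z) * exp (A.β q z) * (1 - ⟪A.ν p z, A.ν q z⟫) ≤ 2 := by
  have t : Tendsto (fun e : ℝ => 2 * exp e) (𝓝[>] 0) (𝓝 (2 * exp 0)) :=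
    ((continuous_exp.const_mul 2).tendsto 0).mono_left nhdsWithin_le_nhds
  rw [exp_zero, mul_one] at t
  exact ge_of_tendsto t (eventually_mem_nhdsWithin.mono fun e he => gr1 F p q z h he)

theorem cg (F : BF m lg dX A) :
    Continuous fun r : (V × V) × P => gq (A.β r.2) (A.ν r.2) (r.1.1, r.1.2) := by
  have c : Continuous fun r : (V × V) × P => (r.2, r.1.1) :=
    continuous_snd.prodMk continuous_fst.fst
  exact (F.cont.comp c).rexp.mul (((cn F).comp c).inner continuous_fst.snd)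

theorem mx (F : BF m lg dX A) (G : BG lg A) (x z w : V) (hw : ‖w‖ = 1) :
    ∃ p, A.pr p = x ∧ 0 < gq (A.β p) (A.ν p) (z, w) ∧
      sSup ((fun p => gq (A.β p) (A.ν p) (z, w)) '' {p | A.pr p = x}) =
        gq (A.β p) (A.ν p) (z, w) ∧
      ∀ p', A.pr p' = x → gq (A.β p') (A.ν p') (z, w) ≤ gq (A.β p) (A.ν p) (z, w) := by
  obtain ⟨p₀, h₀, e₀⟩ := G.onto x z w hw
  have c : Continuous fun p => gq (A.β p) (A.ν p) (z, w) :=
    (cg F).comp ((continuous_const (y := (z, w))).prodMk continuous_id)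
  obtain ⟨p, hp, hm⟩ := (F.cpt x).exists_isMaxOn ⟨p₀, h₀⟩ c.continuousOn
  refine ⟨p, hp, lt_of_lt_of_le ?_ (hm h₀), IsGreatest.csSup_eq ⟨⟨p, hp, rfl⟩, ?_⟩,
    fun p' h' => hm h'⟩
  · change 0 < exp (A.β p₀ z) * ⟪A.ν p₀ z, w⟫
    rw [e₀, real_inner_self_eq_norm_sq, hw, one_pow, mul_one]
    exact exp_pos _
  · rintro _ ⟨p', h', rfl⟩
    exact hm h'

end BHx

theorem sBH : SBH := by
  intro m lg dX P _ A F G
  refine ⟨BHx.cn F, BHx.nu F, BHx.gr2 F, fun x z w hw => ?_, fun x => ?_⟩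
  · obtain ⟨p, h1, h2, h3, h4⟩ := BHx.mx F G x z w hw
    exact ⟨p, h1, h2, congrArg log h3, h4⟩
  · have c := (F.cpt x).continuous_sSup
      (f := fun (q : V × V) p => gq (A.β p) (A.ν p) (q.1, q.2)) (BHx.cg F)
    refine c.continuousOn.log fun q hq => ?_
    obtain ⟨p, -, h2, h3, -⟩ := BHx.mx F G x q.1 q.2 hq
    exact (h2.trans_eq h3.symm).ne'

end Pool.Agent.MP_3ee8cb_gt.DQ
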