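import Pool.Agent.MP_3ee8cb_gt.DQ.Spec
import Pool.Agent.MP_3ee8cb_gt.DLH.Hess

/-! The covariant derivative of the direction to a point. -/

namespace Pool.Agent.MP_3ee8cb_gt.DQ

open DN (Dim dm)

variable [Dim]

open DN DZ Real
open DZH (DL)
open scoped RealInnerProductSpace

namespace HDx

variable {m : MF} {lg : V × V → V}

theorem rad (h : YW m lg) (Q y : V) : DL m lg Q y (lg (y, Q)) = -lg (y, Q) := by
  have h1 := DLH.dl_der h Q (y, lg (y, Q)) 0
  have h2 := ((hasDerivAt_id (0 : ℝ)).const_sub 1).smul (DNWI.vel_deriv h.ok (y, lg (y, Q)) 0)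
  have e : (fun s => lg ((m.Z s (y, lg (y, Q))).1, Q)) =
      fun s => (1 - s) • (m.Z s (y, lg (y, Q))).2 := funext fun s => by
    rw [← DNWI.lg_geo h.ok h.jac h.had, h.had.ex]
  rw [e] at h1
  have h3 := h1.unique h2
  simp only [h.ok.zero, id, sub_zero, one_smul, neg_smul] at h3
  rw [sub_eq_iff_eq_add] at h3
  rw [h3]
  abel

theorem ne (h : YW m lg) {Q y : V} (hy : y ≠ Q) : lg (y, Q) ≠ 0 := fun e => hy (by
  have a := h.had.ex y Q
  have b := h.jac.scale 1 0 y 0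
  rw [zero_smul, zero_mul, h.ok.zero] at b
  rw [e, b] at a
  exact a)

theorem dun {F : V → V} {F' : V →L[ℝ] V} {y : V} (hF : HasFDerivAt F F' y) (h0 : F y ≠ 0) :
    ∃ D : V →L[ℝ] V, HasFDerivAt (fun z => un (F z)) D y ∧
      ∀ u, D u = ‖F y‖⁻¹ • (F' u - ⟪un (F y), F' u⟫ • un (F y)) := by
  have p := norm_pos_iff.2 h0
  have d1 := hF.norm_sq.sqrt (by positivity)
  simp only [sqrt_sq (norm_nonneg _)] at d1
  have d2 := ((hasDerivAt_inv p.ne').comp_hasFDerivAt y d1).smul hF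
  refine ⟨_, d2, fun u => ?_⟩
  simp only [un, add_apply, smul_apply, ContinuousLinearMap.smulRight_apply,
    ContinuousLinearMap.comp_apply, innerSL_apply_apply,
    Function.comp_apply, real_inner_smul_left, smul_eq_mul, nsmul_eq_mul, Nat.cast_ofNat]
  rw [smul_sub, smul_smul, smul_smul, sub_eq_add_neg, ← neg_smul]
  congr 2
  field_simp

end HDx

open HDx in
theorem sHD : SHD := by
  intro m lg b h hb hJ y Q hy
  have h0 := ne h hy
  have p := norm_pos_iff.2 h0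
  obtain ⟨D, hD, eD⟩ := dun (DLH.dlg h Q y) h0
  have r := rad h Q y
  have sy := DLH.sym h Q y
  have j : ∀ e, ⟪e, lg (y, Q)⟫ = 0 → ‖lg (y, Q)‖ * ‖e‖ ^ 2 ≤ -⟪DL m lg Q y e, e⟫ ∧
      -⟪DL m lg Q y e, e⟫ ≤ (b * ‖lg (y, Q)‖ + 1) * ‖e‖ ^ 2 := fun e he => by
    obtain ⟨ξ, a1, a2, a3⟩ := DLH.jf h Q y e
    have := hJ (y, lg (y, Q)) ξ h0 a3 (by rw [a1]; exact he)
    rwa [a1, a2] at this
  have eF : ∀ u, fderiv ℝ (fun y => lg (y, Q)) y u =
      DL m lg Q y (m.S y u) - m.om y u (lg (y, Q)) := fun u => by simp [DL, h.ok.RS]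
  have sk : ∀ u, ⟪lg (y, Q), m.om y u (lg (y, Q))⟫ = 0 := fun u => by
    have := h.ok.skew y u (lg (y, Q)) (lg (y, Q))
    rw [real_inner_comm] at this
    linarith
  generalize DL m lg Q y = A at *
  obtain ⟨n, hn⟩ : ∃ n, n = un (lg (y, Q)) := ⟨_, rfl⟩
  obtain ⟨T, hT⟩ : ∃ T, T = ‖lg (y, Q)‖ := ⟨_, rfl⟩
  have eL : lg (y, Q) = T • n := by
    rw [hn, hT, un, smul_smul, mul_inv_cancel₀ p.ne', one_smul]
  have n1 : ⟪n, n⟫ = 1 := by
    rw [real_inner_self_eq_norm_sq, hn, un, norm_smul, norm_inv, norm_norm, inv_mul_cancel₀ p.ne',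
      one_pow]
  unfold Hs
  beta_reduce
  rw [← hn, ← hT] at eD ⊢
  rw [← hT] at p j
  have rn : A n = -n := by
    rw [eL, map_smul, ← smul_neg] at r
    exact smul_right_injective V p.ne' r
  have an : ∀ a, ⟪A a, n⟫ = -⟪n, a⟫ := fun a => by
    rw [sy, rn, inner_neg_right, real_inner_comm]
  obtain ⟨E, hE⟩ : ∃ E : V →L[ℝ] V, ∀ a, E a = -(T⁻¹ • (A a + ⟪n, a⟫ • n)) - (a - ⟪n, a⟫ • n) :=
    ⟨-(T⁻¹ • (A + (innerSL ℝ n).smulRight n)) - (1 - (innerSL ℝ n).smulRight n),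
      fun a => by simp⟩
  refine ⟨E, fun a c => ?_, ?_, fun a => ?_, D, hD, fun u => ?_⟩
  · simp only [hE, inner_sub_left, inner_sub_right, inner_neg_left, inner_neg_right,
      real_inner_smul_left, real_inner_smul_right, inner_add_left, inner_add_right, sy,
      real_inner_comm n a]
    ring
  · rw [hE, rn, n1]
    simp
  · have a1 : ⟪a - ⟪n, a⟫ • n, n⟫ = 0 := by
      rw [inner_sub_left, real_inner_smul_left, n1, real_inner_comm]
      ring
    obtain ⟨b1, b2⟩ := j (a - ⟪n, a⟫ • n) (by rw [eL, real_inner_smul_right, a1, mul_zero])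
    have a2 : ‖a - ⟪n, a⟫ • n‖ ^ 2 = ‖a‖ ^ 2 - ⟪n, a⟫ ^ 2 := by
      rw [← real_inner_self_eq_norm_sq, ← real_inner_self_eq_norm_sq, inner_sub_right,
        real_inner_smul_right, a1, inner_sub_left, real_inner_smul_left]
      ring
    have a3 : ⟪A (a - ⟪n, a⟫ • n), a - ⟪n, a⟫ • n⟫ = ⟪A a, a⟫ + ⟪n, a⟫ ^ 2 := by
      rw [inner_sub_right, real_inner_smul_right, an, real_inner_comm (a - ⟪n, a⟫ • n) n, a1,
        map_sub, map_smul, rn, inner_sub_left, real_inner_smul_left, inner_neg_left]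
      ring
    have a4 : T * ⟪E a, a⟫ = -(⟪A a, a⟫ + ⟪n, a⟫ ^ 2) - T * (‖a‖ ^ 2 - ⟪n, a⟫ ^ 2) := by
      simp only [hE, inner_sub_left, inner_neg_left, real_inner_smul_left, inner_add_left,
        real_inner_self_eq_norm_sq]
      field_simp
    rw [a2, a3] at b1 b2
    have a5 : T * (b - 1 + T⁻¹) = b * T + 1 - T := by field_simp; ring
    refine ⟨le_of_mul_le_mul_left (by rw [a4]; linarith) p, le_of_mul_le_mul_left ?_ p⟩
    rw [a4, ← mul_assoc, a5]
    nlinarith [mul_nonneg (mul_nonneg (sub_nonneg.2 hb) p.le) (sq_nonneg ⟪n, a⟫),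
      sq_nonneg ⟪n, a⟫]
  · have s1 : ⟪n, m.om y u n⟫ = 0 := by
      have := sk u
      rw [eL, map_smul, real_inner_smul_left, real_inner_smul_right] at this
      simpa [p.ne'] using this
    rw [eD, eF, hE, eL, map_smul, inner_sub_right, real_inner_smul_right, s1,
      real_inner_comm (A _), an]
    have : T⁻¹ • T • m.om y u n = m.om y u n := by
      rw [smul_smul, inv_mul_cancel₀ p.ne', one_smul]
    rw [smul_sub, smul_sub, this]
    module

end Pool.Agent.MP_3ee8cb_gt.DQ
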