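import Pool.Agent.MP_3ee8cb_gt.DQ.Spec
import Pool.Agent.MP_3ee8cb_gt.DNWI.Base

/-! The derivative of the direction to the centre of a Busemann function. -/

namespace Pool.Agent.MP_3ee8cb_gt.DQ

open Set Filter Topology Real
open scoped RealInnerProductSpace
open DN (Dim dm)

variable [Dim]

open DN DZ

namespace HESx

/-- A limit of derivatives at one point. -/
theorem lim_der {f : ℕ → V → V} {g : V → V} {D : ℕ → V →L[ℝ] V} {z : V} {δ : ℕ → ℝ}
    (hD : ∀ n, HasFDerivAt (f n) (D n) z) (h0 : ∀ n, f n z = g z) (hp : ∀ n, 0 ≤ δ n)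
    (hδ : Tendsto δ atTop (𝓝 0)) (hn : ∀ n, ∀ᶠ y in 𝓝 z, ‖g y - f n y‖ ≤ δ n * ‖y - z‖) :
    ∃ D', Tendsto D atTop (𝓝 D') ∧ HasFDerivAt g D' z := by
  have hc : ∀ n k, ‖D n - D k‖ ≤ δ n + δ k := by
    intro n k
    refine HasFDerivAt.le_of_lip' ((hD n).sub (hD k)) (add_nonneg (hp n) (hp k)) ?_
    filter_upwards [hn n, hn k] with y a b
    have e : (f n - f k) y - (f n - f k) z = (g y - f k y) - (g y - f n y) := by
      simp only [Pi.sub_apply, h0]
      abel
    rw [e]
    refine (norm_sub_le _ _).trans ?_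
    linarith
  have hcau : CauchySeq D := by
    rw [Metric.cauchySeq_iff]
    intro ε hε
    obtain ⟨N, hN⟩ := eventually_atTop.1 (hδ.eventually (gt_mem_nhds (half_pos hε)))
    refine ⟨N, fun n h1 k h2 => ?_⟩
    rw [dist_eq_norm]
    have := hN n h1
    have := hN k h2
    linarith [hc n k]
  obtain ⟨D', hD'⟩ := cauchySeq_tendsto_of_complete hcau
  refine ⟨D', hD', ?_⟩
  rw [hasFDerivAt_iff_isLittleO, Asymptotics.isLittleO_iff]
  intro ε hε
  have h3 : 0 < ε / 3 := by positivity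
  have a1 := hδ.eventually (gt_mem_nhds h3)
  have a2 : ∀ᶠ n in atTop, ‖D n - D'‖ < ε / 3 := by
    have := (Metric.tendsto_nhds.1 hD') _ h3
    simpa only [dist_eq_norm] using this
  obtain ⟨n, b1, b2⟩ := (a1.and a2).exists
  have b3 := Asymptotics.isLittleO_iff.1 (hD n).isLittleO h3
  filter_upwards [hn n, b3] with y c1 c2
  have e : g y - g z - D' (y - z) =
      (g y - f n y) + (f n y - f n z - D n (y - z)) + (D n - D') (y - z) := by
    simp only [sub_apply, h0]
    abel
  rw [e]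
  have c3 := (D n - D').le_opNorm (y - z)
  have c4 := norm_nonneg (y - z)
  have c5 := mul_le_mul_of_nonneg_right b1.le c4
  have c6 := mul_le_mul_of_nonneg_right b2.le c4
  refine (norm_add₃_le).trans ?_
  linarith

end HESx

theorem sHES : SHES := by
  intro m lg b β ν yw hb isb hd ap z
  have hj := yw.jac
  have hl := yw.had
  have l0 : lg (z, z) = 0 := by
    have h := DNWI.lg_ray hj hl 0 (z, 0)
    simpa [yw.ok.zero] using h
  have hT : ∀ n : ℕ, (0 : ℝ) < n + 1 := fun n => by positivity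
  set Q : ℕ → V := fun n => (m.Z (n + 1) (z, ν z)).1 with hQ
  have lq : ∀ n, lg (z, Q n) = ((n : ℝ) + 1) • ν z := fun n => DNWI.lg_ray hj hl _ (z, ν z)
  have nq : ∀ n, ‖lg (z, Q n)‖ = n + 1 := fun n => by
    rw [lq, norm_smul, isb.unit, mul_one, norm_eq_abs, abs_of_pos (hT n)]
  have ne : ∀ n, z ≠ Q n := fun n h => by
    have := nq n
    rw [← h, l0, norm_zero] at this
    exact (hT n).ne this
  have uz : ∀ n, un (lg (z, Q n)) = ν z := fun n => by
    rw [un, nq, lq, smul_smul, inv_mul_cancel₀ (hT n).ne', one_smul]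
  choose E sy e0 bd D hD fD using fun n => hd z (Q n) (ne n)
  simp only [uz, nq] at e0 bd fD
  have cl : ContDiff ℝ 1 fun y => lg (z, y) := hl.c1.comp (contDiff_const.prodMk contDiff_id)
  obtain ⟨K, t, ht, hK⟩ := (cl.contDiffAt (x := z)).exists_lipschitzOnWith
  have hK' : ∀ᶠ y in 𝓝 z, ‖lg (z, y)‖ ≤ K * ‖y - z‖ := by
    filter_upwards [ht] with y hy
    have := hK.dist_le_mul y hy z (mem_of_mem_nhds ht)
    rwa [l0, dist_zero_right, dist_eq_norm] at this
  have hs : ∀ᶠ y in 𝓝 z, ‖lg (z, y)‖ < 1 / 2 := by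
    have := (cl.continuous.norm.tendsto z)
    rw [l0, norm_zero] at this
    exact this.eventually (gt_mem_nhds (by norm_num))
  have ti : Tendsto (fun n : ℕ => ((n : ℝ) + 1)⁻¹) atTop (𝓝 0) := by
    simpa only [one_div] using tendsto_one_div_add_atTop_nhds_zero_nat (𝕜 := ℝ)
  obtain ⟨D', tD, hD'⟩ := HESx.lim_der (g := ν) (δ := fun n => 4 * K * ((n : ℝ) + 1)⁻¹) hD uz
    (fun n => by positivity) (by simpa using ti.const_mul (4 * (K : ℝ))) (fun n => by
      filter_upwards [hK', hs] with y a1 a2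
      have n0 : (0 : ℝ) ≤ n := Nat.cast_nonneg n
      refine (ap z y (n + 1) (hT n) (by linarith)).trans ?_
      rw [div_eq_mul_inv]
      have := mul_le_mul_of_nonneg_right a1 (inv_pos.2 (hT n)).le
      linarith)
  let E' : V →L[ℝ] V := -(D'.comp (m.R z)) - (((m.om z).flip (ν z)).comp (m.R z)) -
    (ContinuousLinearMap.id ℝ V - (innerSL ℝ (ν z)).smulRight (ν z))
  have eE : ∀ a, E' a = -D' (m.R z a) - m.om z (m.R z a) (ν z) - (a - ⟪ν z, a⟫ • ν z) := by
    intro a
    simp [E']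
  have eN : ∀ n a, E n a = -D n (m.R z a) - m.om z (m.R z a) (ν z) - (a - ⟪ν z, a⟫ • ν z) := by
    intro n a
    have := fD n (m.R z a)
    rw [yw.ok.SR] at this
    rw [eq_sub_of_add_eq this]
    abel
  have tE : ∀ a, Tendsto (fun n => E n a) atTop (𝓝 (E' a)) := by
    intro a
    simp only [eN, eE]
    have : Tendsto (fun n => D n (m.R z a)) atTop (𝓝 (D' (m.R z a))) :=
      ((ContinuousLinearMap.apply ℝ V (m.R z a)).continuous.tendsto D').comp tD
    exact (this.neg.sub_const _).sub_const _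
  refine ⟨E', fun a c => ?_, ?_, fun a => ⟨?_, ?_⟩, D', hD', fun u => ?_⟩
  · refine tendsto_nhds_unique ((tE a).inner (tendsto_const_nhds (x := c))) ?_
    simp only [sy]
    exact tendsto_const_nhds.inner (tE c)
  · refine tendsto_nhds_unique (tE (ν z)) ?_
    simp only [e0]
    exact tendsto_const_nhds
  · exact ge_of_tendsto' ((tE a).inner tendsto_const_nhds) fun n => (bd n a).1
  · have := ((ti.const_add (b - 1)).mul_const (‖a‖ ^ 2))
    rw [add_zero] at this
    exact le_of_tendsto_of_tendsto' ((tE a).inner tendsto_const_nhds) this fun n => (bd n a).2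
  · rw [eE, yw.ok.RS]
    abel

end Pool.Agent.MP_3ee8cb_gt.DQ
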