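import Pool.Agent.MP_3ee8cb_gt.DQ.Spec
import Pool.Agent.MP_3ee8cb_gt.DZH.Jac

/-! Block J2: Jacobi fields that vanish at time one. -/

namespace Pool.Agent.MP_3ee8cb_gt.DQ

open DN (Dim dm)

variable [Dim]

open DN DZ Set Real
open scoped RealInnerProductSpace

namespace J2x

variable {m : MF} {b : ℝ}

theorem ksym (hj : m.Jac) (y v a c : V) : ⟪m.K y a v v, c⟫ = ⟪m.K y c v v, a⟫ := by
  rw [hj.pK y a v v c, hj.aK y v c a, inner_neg_left, hj.sK y c v a v, neg_neg, real_inner_comm]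

theorem key (hj : m.Jac) (hu : m.Up 1) (hd : m.Dn (b ^ 2)) (y v x w : V) :
    ⟪m.K y x v v, x⟫ - 2 * ⟪m.K y x v v, w⟫ ≤ (b * ‖v‖) ^ 2 * ‖w‖ ^ 2 := by
  have h1 := hu y (x - w) v
  have h2 := hd y w v
  have h3 := ksym hj y v x w
  have h4 : ⟪x - w, v⟫ ^ 2 ≤ ‖x - w‖ ^ 2 * ‖v‖ ^ 2 := by
    rw [← mul_pow, ← sq_abs]
    exact pow_le_pow_left₀ (abs_nonneg _) (abs_real_inner_le_norm _ _) 2
  have h5 : m.K y (x - w) v v = m.K y x v v - m.K y w v v := by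
    obtain ⟨L, hL⟩ := hj.lK y
    simp only [hL, map_sub, sub_apply]
  rw [h5, inner_sub_left (m.K y x v v), inner_sub_right, inner_sub_right] at h1
  nlinarith [mul_nonneg (sq_nonneg b) (sq_nonneg ⟪w, v⟫)]

theorem low (ho : m.OK) (hj : m.Jac) (hu : m.Up 1) (z ξ : V × V) (h1 : m.J z ξ 1 = 0)
    (hp : ⟪m.hor z ξ, z.2⟫ = 0) : ‖z.2‖ * ‖m.hor z ξ‖ ^ 2 ≤ -⟪m.ver z ξ, m.hor z ξ⟫ := by
  have p0 : ⟪m.ver z ξ, z.2⟫ = 0 := by
    have := DNWI.J_vel ho hj z ξ 1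
    rw [h1, hp, inner_zero_left] at this
    linarith
  have pj : ∀ t, ⟪m.J z ξ t, (m.Z t z).2⟫ = 0 := fun t => by
    rw [DNWI.J_vel ho hj, hp, p0, mul_zero, add_zero]
  have h := DNTR.le_of_der (c := 0) (t := 1) (fun t =>
    ((DZH.cov_inner ho z (hj.d2 z ξ t) (hj.d1 z ξ t)).add
      ((DZH.cov_sq ho z (hj.d1 z ξ t)).const_mul ‖z.2‖)).neg) (fun t _ => by
      have a1 := hu (m.Z t z).1 (m.J z ξ t) (m.Z t z).2
      rw [pj, hj.norm] at a1
      have a2 := sq_nonneg ‖m.J' z ξ t + ‖z.2‖ • m.J z ξ t‖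
      rw [norm_add_sq_real, real_inner_smul_right, norm_smul, norm_norm, mul_pow,
        real_inner_comm] at a2
      rw [inner_neg_left, real_inner_self_eq_norm_sq]
      nlinarith) (right_mem_Icc.2 zero_le_one)
  simp only [Pi.add_apply, Pi.neg_apply, h1, inner_zero_right, norm_zero, DNWI.J_zero ho,
    DNWI.J'_zero ho] at h
  nlinarith

theorem upp (ho : m.OK) (hj : m.Jac) (hb : 1 ≤ b) (hu : m.Up 1) (hd : m.Dn (b ^ 2))
    (z ξ : V × V) (hz : z.2 ≠ 0) (h1 : m.J z ξ 1 = 0) :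
    -⟪m.ver z ξ, m.hor z ξ⟫ ≤ (b * ‖z.2‖ + 1) * ‖m.hor z ξ‖ ^ 2 := by
  obtain ⟨k, hk⟩ : ∃ k, k = b * ‖z.2‖ := ⟨_, rfl⟩
  have k0 : 0 < k := hk ▸ mul_pos (by linarith) (norm_pos_iff.2 hz)
  have s0 : 0 < sinh k := sinh_pos_iff.2 k0
  obtain ⟨e, he⟩ : ∃ e, e = (sinh k)⁻¹ • m.hor z ξ := ⟨_, rfl⟩
  have e1 : m.hor z ξ = sinh k • e := by rw [he, smul_smul, mul_inv_cancel₀ s0.ne', one_smul]
  obtain ⟨O, O0, -, O1⟩ := hj.par z
  have a1 : ∀ t : ℝ, HasDerivAt (fun s : ℝ => k * (1 - s)) (-k) t := fun t => by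
    simpa using ((hasDerivAt_id t).const_sub 1).const_mul k
  have dW : ∀ t, HasDerivAt (fun s => sinh (k * (1 - s)) • O s e)
      (-(k * cosh (k * (1 - t))) • O t e - m.w z t (sinh (k * (1 - t)) • O t e)) t := fun t =>
    ((a1 t).sinh.smul (O1 e t)).congr_deriv (by
      rw [map_smul]
      module)
  have dW' : ∀ t, HasDerivAt (fun s => -(k * cosh (k * (1 - s))) • O s e)
      (k ^ 2 • sinh (k * (1 - t)) • O t e -
        m.w z t (-(k * cosh (k * (1 - t))) • O t e)) t := fun t =>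
    (((a1 t).cosh.const_mul k).neg.smul (O1 e t)).congr_deriv (by
      rw [map_smul]
      simp only [Pi.neg_apply]
      module)
  have h := DNTR.le_of_der (c := 0) (t := 1) (fun t =>
    (((DZH.cov_inner ho z (hj.d2 z ξ t) (dW t)).const_mul 2).sub
      (DZH.cov_inner ho z (hj.d2 z ξ t) (hj.d1 z ξ t))).sub
        (DZH.cov_inner ho z (dW' t) (dW t))) (fun t _ => by
      have b1 := key hj hu hd (m.Z t z).1 (m.Z t z).2 (m.J z ξ t) (sinh (k * (1 - t)) • O t e)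
      rw [hj.norm, ← hk] at b1
      generalize sinh (k * (1 - t)) • O t e = W at b1 ⊢
      generalize -(k * cosh (k * (1 - t))) • O t e = W'
      have b2 := sq_nonneg ‖m.J' z ξ t - W'‖
      rw [norm_sub_sq_real] at b2
      rw [inner_neg_left, inner_neg_left, real_inner_smul_left, real_inner_self_eq_norm_sq,
        real_inner_self_eq_norm_sq, real_inner_self_eq_norm_sq]
      linarith) (right_mem_Icc.2 zero_le_one)
  simp only [Pi.sub_apply, h1, inner_zero_right, DNWI.J_zero ho, DNWI.J'_zero ho, sub_self,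
    mul_zero, sinh_zero, zero_smul, sub_zero, mul_one, O0, add_zero] at h
  rw [← hk]
  rw [e1] at h ⊢
  rw [real_inner_smul_left, real_inner_smul_right e, real_inner_self_eq_norm_sq] at h
  rw [norm_smul, mul_pow, Real.norm_eq_abs, sq_abs]
  have c1 : k * cosh k ≤ (k + 1) * sinh k := by
    have := cosh_sub_sinh k
    have := exp_le_one_iff.2 (neg_nonpos.2 k0.le)
    have := self_le_sinh_iff.2 k0.le
    nlinarith
  nlinarith [mul_le_mul_of_nonneg_right c1 (mul_nonneg s0.le (sq_nonneg ‖e‖))]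

end J2x

theorem sJ2 : SJ2 := fun _ _ ho hj hb hu hd z ξ hz h1 hp =>
  ⟨J2x.low ho hj hu z ξ h1 hp, J2x.upp ho hj hb hu hd z ξ hz h1⟩

end Pool.Agent.MP_3ee8cb_gt.DQ
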