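import Pool.Agent.MP_3ee8cb_gt.DQ.Spec

/-! The support function is Lipschitz in the base point; convexity and nesting of the cores. -/

namespace Pool.Agent.MP_3ee8cb_gt.DQ

open DN (Dim dm)

variable [Dim]

open Set Real DN DZ
open scoped RealInnerProductSpace

namespace LXx

variable {m : MF} {lg : V × V → V} {dX : V → V → ℝ} {P : Type} [TopologicalSpace P] {A : Fam P}

theorem shift (hh : BH A) {p p' : P} {k : ℝ} (h : ∀ z, A.β p' z = A.β p z + k) (q : V × V) :
    gq (A.β p') (A.ν p') q = exp k * gq (A.β p) (A.ν p) q := by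
  rw [gq, gq, h, hh.nu p p' k h, exp_add]
  ring

theorem half (hb : BF m lg dX A) (hh : BH A) (x x' z w : V) (hw : ‖w‖ = 1) {d : ℝ}
    (hd : ∀ p p' k, A.pr p = x → A.pr p' = x' → (∀ z, A.β p' z = A.β p z + k) → |k| ≤ d) :
    uq A x z w - uq A x' z w ≤ d := by
  obtain ⟨p, hp, h0, e, -⟩ := hh.max x z w hw
  obtain ⟨q, -, -, e', hq⟩ := hh.max x' z w hw
  obtain ⟨p', k, hp', hk⟩ := hb.mov p x'
  have h1 := hq p' hp'
  rw [shift hh hk] at h1
  have h2 := log_le_log (mul_pos (exp_pos k) h0) h1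
  rw [log_mul (exp_pos k).ne' h0.ne', log_exp] at h2
  have := abs_le.1 (hd p p' k hp hp' hk)
  rw [e, e']
  linarith [this.1]

theorem back (hb : BF m lg dX A) {p p' : P} {k : ℝ} (h : ∀ z, A.β p' z = A.β p z + k) :
    |k| ≤ dX (A.pr p') (A.pr p) := by
  have := hb.lip p' p (-k) fun z => by rw [h]; ring
  rwa [abs_neg] at this

theorem lipx (hb : BF m lg dX A) (hh : BH A) (x x' z w : V) (hw : ‖w‖ = 1) :
    |uq A x z w - uq A x' z w| ≤ dX x x' := by
  have h1 := half hb hh x x' z w hw (d := dX x x') fun p p' k hp hp' hk => by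
    rw [← hp, ← hp']
    exact hb.lip p p' k hk
  have h2 := half hb hh x' x z w hw (d := dX x x') fun p p' k hp hp' hk => by
    rw [← hp, ← hp']
    exact back hb hk
  exact abs_le.2 ⟨by linarith, h1⟩

end LXx

theorem sLX : SLX := by
  intro m lg dX P _ A hb _ hh
  refine ⟨LXx.lipx hb hh, ?_, ?_⟩
  · exact fun R x z h0 h1 t ht p hp => (hb.b1 p).sub z _ (h0 p hp) (h1 p hp) t ht
  · intro R R' x x' hx z hz p hp
    obtain ⟨p', c, hp', hc⟩ := hb.mov p x'
    have h1 := hb.lip p p' c hc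
    rw [hp, hp'] at h1
    have h2 := hz p' hp'
    rw [hc] at h2
    linarith [(abs_le.1 (h1.trans hx)).1]

end Pool.Agent.MP_3ee8cb_gt.DQ
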