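import Pool.Agent.MP_3ee8cb_gt.DQ.Spec
import Pool.Agent.MP_3ee8cb_gt.DZ.RZERO

/-! The zero of the averaged field under the sharp condition. -/

namespace Pool.Agent.MP_3ee8cb_gt.DQ

open Set Filter Topology MeasureTheory DN DZ DZZ
open scoped RealInnerProductSpace

variable [Dim]

namespace ZRx

variable {m : MF} {lg : V × V → V} {μ : Measure V} {u u' : V × V → ℝ} {ε : ℝ}

theorem one (ho : m.OK) (hu : ContinuousOn u {p | ‖p.2‖ = 1}) {z : V × V} {O : ℝ → V ≃ₗᵢ[ℝ] V}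
    (h1 : ∀ t, O t z.2 = (m.Z t z).2) (h2 : ∀ a t, HasDerivAt (fun s => O s a) (-m.w z t (O t a)) t)
    {a b : ℝ} (hab : a ≤ b) {w : V} (hw : ‖w‖ = 1)
    (h : ∀ t ∈ Icc a b, ∃ Q, Tc m u ε Q ((m.Z t z).1, O t w)) :
    u ((m.Z b z).1, O b w) * ⟪w, z.2⟫ + b * (⟪w, z.2⟫ ^ 2 - ε ^ 2 / 4 * ‖z.2‖ ^ 2) ≤
      u ((m.Z a z).1, O a w) * ⟪w, z.2⟫ + a * (⟪w, z.2⟫ ^ 2 - ε ^ 2 / 4 * ‖z.2‖ ^ 2) := by
  have d := fun t => HasDerivAt.prodMk
    ((ContinuousLinearMap.fst ℝ V V).hasFDerivAt.comp_hasDerivAt t (ho.ode z t)) (h2 w t)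
  have n : ∀ t, ‖O t w‖ = 1 := fun t => ((O t).norm_map w).trans hw
  have c : ContinuousOn (fun t => u ((m.Z t z).1, O t w) * ⟪w, z.2⟫ +
      t * (⟪w, z.2⟫ ^ 2 - ε ^ 2 / 4 * ‖z.2‖ ^ 2)) (Icc a b) :=
    ((hu.comp (fun t _ => (d t).continuousAt.continuousWithinAt) fun t _ => n t).mul
      continuousOn_const).add (continuousOn_id.mul continuousOn_const)
  have k : ∀ t ∈ Icc a b, ∃ (ψ : ℝ → ℝ) (e : ℝ), HasDerivAt ψ e t ∧
      e * ⟪w, z.2⟫ + 1 * (⟪w, z.2⟫ ^ 2 - ε ^ 2 / 4 * ‖z.2‖ ^ 2) ≤ 0 ∧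
      ψ t = u ((m.Z t z).1, O t w) ∧ ∀ᶠ s in 𝓝 t, ψ s ≤ u ((m.Z s z).1, O s w) := fun t ht => by
    obtain ⟨Q, Φ, D, c, ζ, a1, a2, a3, a4, -, a5, -, a6⟩ := h t ht
    refine ⟨_, _, a1.comp_hasDerivAt t (d t), ?_, a2,
      ((d t).continuousAt.eventually a3).mono fun s hs => hs (n s)⟩
    rw [a6 _ (by simp [MF.ver, MF.vf, MF.w]), show m.hor _ _ = O t z.2 from
      (ho.SR _ _).trans (h1 t).symm, inner_add_left, real_inner_smul_left,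
      LinearIsometryEquiv.inner_map_map]
    have b1 := pow_le_pow_left₀ (abs_nonneg _) (abs_real_inner_le_norm ζ (O t z.2)) 2
    rw [(O t).norm_map, sq_abs, mul_pow] at b1
    have b2 := mul_le_mul_of_nonneg_right (b1.trans (mul_le_mul_of_nonneg_right a5 (sq_nonneg _)))
      (sq_nonneg ⟪w, z.2⟫)
    have b3 := mul_nonneg (sub_nonneg.2 a4) (sq_nonneg ⟪w, z.2⟫)
    have b4 := abs_le_of_sq_le_sq' (a := ⟪ζ, O t z.2⟫ * ⟪w, z.2⟫)
      (b := (c - 1) * ⟪w, z.2⟫ ^ 2 + ε ^ 2 / 4 * ‖z.2‖ ^ 2)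
      (by nlinarith [sq_nonneg ((c - 1) * ⟪w, z.2⟫ ^ 2 - ε ^ 2 / 4 * ‖z.2‖ ^ 2)]) (by positivity)
    nlinarith [b4.1]
  rcases le_total 0 ⟪w, z.2⟫ with p | p
  · refine anti_below hab c fun t ht => ?_
    obtain ⟨ψ, e, a1, a2, a3, a4⟩ := k t ht
    exact ⟨_, _, (a1.mul_const _).fun_add ((hasDerivAt_id t).mul_const _), a2, by simp [a3],
      a4.mono fun s hs => add_le_add_left (mul_le_mul_of_nonneg_right hs p) _⟩
  · refine anti_above hab c fun t ht => ?_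
    obtain ⟨ψ, e, a1, a2, a3, a4⟩ := k t ht
    exact ⟨_, _, (a1.mul_const _).fun_add ((hasDerivAt_id t).mul_const _), a2, by simp [a3],
      a4.mono fun s hs => add_le_add_left (mul_le_mul_of_nonpos_right hs p) _⟩

theorem mono (ho : m.OK) (hj : m.Jac) (hμ : Rot μ) (hu : ContinuousOn u {p | ‖p.2‖ = 1})
    (z : V × V) {a b : ℝ} (hab : a ≤ b)
    (h : ∀ t ∈ Icc a b, ∀ w, ‖w‖ = 1 → ∃ Q, Tc m u ε Q ((m.Z t z).1, w)) :
    ⟪av μ u (m.Z b z).1, (m.Z b z).2⟫ + (b - a) * ((1 - dm * (ε ^ 2 / 4)) * ‖z.2‖ ^ 2) ≤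
      ⟪av μ u (m.Z a z).1, (m.Z a z).2⟫ := by
  have := hμ.fin
  obtain ⟨O, -, h1, h2⟩ := hj.par z
  have i := hμ.int (f := fun w => ⟪w, z.2⟫ ^ 2) (by fun_prop)
  have i' := fun t : ℝ => hμ.int (f := fun w => t * (⟪w, z.2⟫ ^ 2 - ε ^ 2 / 4 * ‖z.2‖ ^ 2))
    (by fun_prop)
  have e : ∀ t, ∫ w, (u ((m.Z t z).1, O t (‖w‖⁻¹ • w)) * ⟪‖w‖⁻¹ • w, z.2⟫ +
      t * (⟪‖w‖⁻¹ • w, z.2⟫ ^ 2 - ε ^ 2 / 4 * ‖z.2‖ ^ 2)) ∂μ =
        ⟪av μ u (m.Z t z).1, (m.Z t z).2⟫ + t * ((1 - dm * (ε ^ 2 / 4)) * ‖z.2‖ ^ 2) := fun t => by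
    rw [integral_add (av_inner hμ hu _ _ _).1 (i' t),
      ← (av_inner hμ hu _ _ _).2, h1, integral_const_mul, integral_sub i (integrable_const _),
      hμ.sq, integral_const, hμ.mass, smul_eq_mul]
    ring
  have k := integral_mono_ae
    ((av_inner hμ hu _ _ _).1.add (i' b)) ((av_inner hμ hu _ _ _).1.add (i' a))
    (hμ.ne.mono fun w hw => one ho hu h1 h2 hab (nrm hw) fun t ht =>
      h t ht _ (((O t).norm_map _).trans (nrm hw)))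
  have k1 := e a
  have k2 := e b
  simp only [Pi.add_apply] at k
  linarith

theorem stab (ho : m.OK) (hj : m.Jac) (hl : m.Had lg) (hμ : Rot μ)
    (hu : ContinuousOn u {p | ‖p.2‖ = 1}) (hu' : ContinuousOn u' {p | ‖p.2‖ = 1})
    (hε : dm * ε ^ 2 < 4) {z z' : V} {δ : ℝ} (h0 : av μ u z = 0) (h1 : av μ u' z' = 0)
    (h : ∀ w, ‖w‖ = 1 → |u (z', w) - u' (z', w)| ≤ δ)
    (ht : ∀ t ∈ Icc (0 : ℝ) 1, ∀ w, ‖w‖ = 1 → ∃ Q, Tc m u ε Q ((m.Z t (z, lg (z, z'))).1, w)) :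
    ‖lg (z, z')‖ ≤ dm / (1 - dm * (ε ^ 2 / 4)) * δ := by
  have k1 := mono ho hj hμ hu (z, lg (z, z')) zero_le_one ht
  have k2 := av_sub hμ hu hu' h
  have k3 := neg_le_of_abs_le (abs_real_inner_le_norm (av μ u z') (m.Z 1 (z, lg (z, z'))).2)
  rw [ho.zero, hl.ex, h0, inner_zero_left] at k1
  rw [h1, sub_zero] at k2
  rw [hj.norm] at k3
  simp only at k1 k3
  have k4 := (norm_nonneg _).trans k2
  have k7 : 0 < 1 - dm * (ε ^ 2 / 4) := by linarith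
  rw [div_mul_eq_mul_div, le_div_iff₀ k7]
  rcases (norm_nonneg (lg (z, z'))).eq_or_lt with k6 | k6
  · rwa [← k6, zero_mul]
  · refine le_of_mul_le_mul_right ?_ k6
    nlinarith [mul_le_mul_of_nonneg_right k2 k6.le]

theorem ex (hY : YW m lg) {W : V → V} (hW : Continuous W) {C₀ : Set V} {y : V} {ρ : ℝ}
    (h1 : ∀ z ∈ C₀, ‖lg (y, z)‖ ≤ ρ) (h2 : ∀ z, z ∉ C₀ → ∃ e, 0 < ⟪W z, e⟫ ∧ 0 ≤ ⟪lg (z, y), e⟫) :
    ∃ z ∈ C₀, W z = 0 := by
  have c2 : Continuous fun b => (m.Z 1 (y, b)).1 :=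
    (hY.ok.cZ.continuous.comp (f := fun b : V => ((1 : ℝ), y, b)) (by fun_prop)).fst
  have c1 := hY.had.c1.continuous
  obtain ⟨B, hB⟩ := (isCompact_sphere (0 : V) (|ρ| + 1)).exists_bound_of_continuousOn
    (hW.comp c2).continuousOn
  have r0 : 0 < |ρ| + 1 := by positivity
  obtain ⟨z, -, hz⟩ := zero_ex hY.ok hY.had
    (W := fun z => W z + ((|B| + 1) * max 0 (‖lg (y, z)‖ - |ρ|)) • lg (z, y)) (by fun_prop) y r0
    fun b hb => by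
      have e1 := hY.had.xe y b
      have e2 := hY.had.rev y (m.Z 1 (y, b)).1
      have e3 := hY.jac.norm 1 (y, b)
      have e4 := (hB b (mem_sphere_zero_iff_norm.2 hb)).trans (le_abs_self B)
      have e5 := real_inner_le_norm (m.Z 1 (y, b)).2 (W (m.Z 1 (y, b)).1)
      rw [e1] at e2
      rw [e3] at e5
      rw [e1, e2, hb, add_sub_cancel_left, max_eq_right zero_le_one, inner_add_right,
        inner_smul_right, inner_neg_right, real_inner_self_eq_norm_sq, e3]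
      simp only [hb, Function.comp] at e4 e5 ⊢
      nlinarith [mul_le_mul_of_nonneg_left e4 r0.le, abs_nonneg ρ, abs_nonneg B,
        mul_nonneg (mul_nonneg (abs_nonneg B) r0.le) (abs_nonneg ρ)]
  have mem : z ∈ C₀ := by
    by_contra k
    obtain ⟨e, k1, k2⟩ := h2 z k
    have k3 := congrArg (fun v => ⟪v, e⟫) hz
    simp only [inner_add_left, real_inner_smul_left, inner_zero_left] at k3
    have k4 : 0 ≤ (|B| + 1) * max 0 (‖lg (y, z)‖ - |ρ|) * ⟪lg (z, y), e⟫ := by positivity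
    linarith
  refine ⟨z, mem, ?_⟩
  rwa [max_eq_left (sub_nonpos.2 ((h1 z mem).trans (le_abs_self ρ))), mul_zero, zero_smul,
    add_zero] at hz

end ZRx

theorem sZERO : SZERO := by
  intro m₀ m lg dX ε u C C₀ Q hM hX hY hε h
  have rotS := hM.rot'
  have c : ∀ x, ContinuousOn (fun q : V × V => u x q.1 q.2) {q | ‖q.2‖ = 1} := fun x q hq => by
    obtain ⟨K, hK⟩ := h.lipz x (‖q.1‖ + 1)
    refine ((hK x (by simp [hX.self])).continuousOn q ⟨by linarith, hq⟩).mono_of_mem_nhdsWithin ?_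
    exact inter_mem (nhdsWithin_le_nhds (continuous_fst.norm.continuousAt.eventually
      (Iic_mem_nhds (lt_add_one _)))) self_mem_nhdsWithin
  obtain ⟨r, r0, hr⟩ := h.nest
  have n := fun x => hr x x (by rw [hX.self]; exact r0.le)
  have ex : ∀ x, ∃ z ∈ C₀ x, VV u x z = 0 := fun x => by
    obtain ⟨y, ρ, h1, h2⟩ := h.inw x
    exact ZRx.ex hY (av_cont rotS (c x)) h1 h2
  choose f f1 f2 using ex
  have st : ∀ x x' z z', z ∈ C x → z' ∈ C x → VV u x z = 0 → VV u x' z' = 0 →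
      ‖lg (z, z')‖ ≤ dm / (1 - dm * (ε ^ 2 / 4)) * dX x x' := fun x x' z z' a1 a2 a3 a4 =>
    ZRx.stab hY.ok hY.jac hY.had rotS (c x) (c x') hε a3 a4 (fun w hw => h.lipx x x' z' w hw)
      fun t ht w hw => ⟨_, h.tou x _ w
        (h.cvx x (z, lg (z, z')) a1 ((hY.had.ex z z').symm ▸ a2) t ht) hw⟩
  refine ⟨f, f1, f2, fun x z a1 a2 => ?_, r, _, r0, div_nonneg (Nat.cast_nonneg _) (by linarith),
    fun x x' k => st x x' _ _ (n x (f1 x)) (hr x x' k (f1 x')) (f2 x) (f2 x')⟩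
  have := st x x _ _ a1 (n x (f1 x)) a2 (f2 x)
  rw [hX.self, mul_zero, norm_le_zero_iff, ← DNWI.lg_self hY.ok hY.jac hY.had z] at this
  rw [← hY.had.ex z (f x), this, hY.had.ex]

end Pool.Agent.MP_3ee8cb_gt.DQ
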