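import Pool.Agent.MP_3ee8cb_gt.DQ.Fin
import Pool.Agent.MP_3ee8cb_gt.DQ.RAP
import Pool.Agent.MP_3ee8cb_gt.DQ.RBH
import Pool.Agent.MP_3ee8cb_gt.DQ.REND1
import Pool.Agent.MP_3ee8cb_gt.DQ.REQV
import Pool.Agent.MP_3ee8cb_gt.DQ.RHD
import Pool.Agent.MP_3ee8cb_gt.DQ.RHES
import Pool.Agent.MP_3ee8cb_gt.DQ.RINW
import Pool.Agent.MP_3ee8cb_gt.DQ.RJ2
import Pool.Agent.MP_3ee8cb_gt.DQ.RJA
import Pool.Agent.MP_3ee8cb_gt.DQ.RJB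
import Pool.Agent.MP_3ee8cb_gt.DQ.RLX
import Pool.Agent.MP_3ee8cb_gt.DQ.RLZ
import Pool.Agent.MP_3ee8cb_gt.DQ.RTOU
import Pool.Agent.MP_3ee8cb_gt.DQ.RZERO

/-! Rigidity under an explicit pinching. -/

namespace Pool.Agent.MP_3ee8cb_gt.DQ

open DN (Dim dm)

variable [Dim]

theorem main : SLN.MainZ ((1 + 41 / (10 * max (dm : ℝ) 4)) ^ 2 - 1) :=
  fin_of (main_of sJ2 sHD sTH sAP sHES sBH sLX sLZ sTOU sINW sZERO sFL sJA sJB sEND1 sEQV)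

end Pool.Agent.MP_3ee8cb_gt.DQ
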