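import Pool.Agent.MP_3ee8cb_gt.DQ.RTOU
import Pool.Agent.MP_3ee8cb_gt.DNWI.Base

/-! The direction to the centre is differentiable. -/

namespace Pool.Agent.MP_3ee8cb_gt.DQ

open Set Filter Topology Real
open scoped RealInnerProductSpace
open DN (Dim dm)

variable [Dim]

open DN DZ

theorem hes7 : SHES := by
  intro m lg b β ν y hb i hd ap z
  have T0 : ∀ n : ℕ, (0 : ℝ) < n + 1 := fun n => by positivity
  have l0 := DNWI.lg_self y.ok y.jac y.had z
  have ray : ∀ n : ℕ, lg (z, (m.Z (n + 1) (z, ν z)).1) = ((n : ℝ) + 1) • ν z := fun n =>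
    DNWI.lg_ray y.jac y.had _ (z, ν z)
  have nr : ∀ n : ℕ, ‖lg (z, (m.Z (n + 1) (z, ν z)).1)‖ = n + 1 := fun n => by
    rw [ray, norm_smul, i.unit, mul_one, norm_of_nonneg (T0 n).le]
  have un0 : ∀ n : ℕ, un (lg (z, (m.Z (n + 1) (z, ν z)).1)) = ν z := fun n => by
    rw [un, nr, ray, smul_smul, inv_mul_cancel₀ (T0 n).ne', one_smul]
  have H := fun n : ℕ => hd z (m.Z (n + 1) (z, ν z)).1 fun e => by
    have := nr n
    rw [← e, l0, norm_zero] at this
    exact (T0 n).ne this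
  simp only [Hs, un0, nr] at H
  choose E e1 e2 e3 D e4 e5 using H
  have i0 : ∀ n : ℕ, 0 < ((n : ℝ) + 1)⁻¹ ∧ ((n : ℝ) + 1)⁻¹ ≤ 1 := fun n =>
    ⟨inv_pos.2 (T0 n), inv_le_one_of_one_le₀ (by simp)⟩
  have bd : ∀ n, E n ∈ Metric.closedBall (0 : V →L[ℝ] V) b := fun n => by
    refine mem_closedBall_zero_iff.2 ((E n).opNorm_le_bound (by linarith) fun a => ?_)
    have q : ∀ a, 0 ≤ ⟪E n a, a⟫ ∧ ⟪E n a, a⟫ ≤ b * ‖a‖ ^ 2 := fun a => ⟨(e3 n a).1,
      (e3 n a).2.trans (mul_le_mul_of_nonneg_right (by linarith [(i0 n).2]) (sq_nonneg _))⟩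
    have := TOUx.sq_le (E n) b (by linarith) (e1 n) q a
    refine le_of_sq_le_sq ?_ (by positivity)
    nlinarith [mul_le_mul_of_nonneg_left (q a).2 (by linarith : 0 ≤ b)]
  obtain ⟨F, -, φ, hφ, t⟩ := (isCompact_closedBall _ _).tendsto_subseq bd
  have ta : ∀ a, Tendsto (fun n => E (φ n) a) atTop (𝓝 (F a)) := fun a =>
    ((ContinuousLinearMap.apply ℝ V a).continuous.tendsto F).comp t
  have ti : Tendsto (fun n => ((φ n : ℝ) + 1)⁻¹) atTop (𝓝 0) :=
    tendsto_inv_atTop_zero.comp (tendsto_atTop_add_const_right _ _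
      (tendsto_natCast_atTop_atTop.comp hφ.tendsto_atTop))
  refine ⟨F, fun a c => tendsto_nhds_unique ((ta a).inner (𝕜 := ℝ) tendsto_const_nhds)
      (by simpa only [e1] using (tendsto_const_nhds (x := a)).inner (𝕜 := ℝ) (ta c)),
    tendsto_nhds_unique (ta _) (by simp [e2]), fun a => ⟨ge_of_tendsto'
      ((ta a).inner (𝕜 := ℝ) tendsto_const_nhds) fun n => (e3 _ a).1, ?_⟩,
    D 0 + (E 0 - F).comp (m.S z), ?_, fun u => ?_⟩
  · refine le_of_tendsto_of_tendsto' ((ta a).inner (𝕜 := ℝ) tendsto_const_nhds) ?_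
      fun n => (e3 _ a).2
    simpa using (ti.const_add (b - 1)).mul_const (‖a‖ ^ 2)
  · have dl : DifferentiableAt ℝ (fun x => lg (z, x)) z :=
      ((y.had.c1.comp (contDiff_const.prodMk contDiff_id)).differentiable one_ne_zero) z
    obtain ⟨K, K0, hK⟩ := dl.hasFDerivAt.isBigO_sub.exists_pos
    have hK := hK.bound
    simp only [l0, sub_zero] at hK
    have s1 : ∀ᶠ x in 𝓝 z, 2 * ‖lg (z, x)‖ ≤ 1 :=
      ((dl.continuousAt.norm.const_mul 2).tendsto).eventually_le_const (by simp [l0])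
    refine .of_isLittleO (Asymptotics.isLittleO_iff.2 fun c hc => ?_)
    have t1 : Tendsto (fun n => 4 * K * ((φ n : ℝ) + 1)⁻¹ + ‖E (φ n) - F‖ * ‖m.S z‖) atTop
        (𝓝 (4 * K * 0 + 0 * ‖m.S z‖)) :=
      (ti.const_mul _).add ((tendsto_iff_norm_sub_tendsto_zero.1 t).mul_const _)
    obtain ⟨n, hn⟩ := (t1.eventually_le_const (u := c / 2) (by simpa using hc)).exists
    filter_upwards [hK, s1, Asymptotics.isLittleO_iff.1 (e4 (φ n)).isLittleO (half_pos hc)]
      with x h1 h2 h3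
    have h4 := ap z x (φ n + 1) (T0 _) (h2.trans (by simp))
    have h5 : ‖(E (φ n) - F) (m.S z (x - z))‖ ≤ ‖E (φ n) - F‖ * (‖m.S z‖ * ‖x - z‖) :=
      ((E (φ n) - F).le_opNorm _).trans (mul_le_mul_of_nonneg_left ((m.S z).le_opNorm _)
        (norm_nonneg _))
    have h6 : ν x - ν z - (D 0 + (E 0 - F).comp (m.S z)) (x - z) =
        (ν x - un (lg (x, (m.Z (φ n + 1) (z, ν z)).1))) +
        (un (lg (x, (m.Z (φ n + 1) (z, ν z)).1)) - ν z - D (φ n) (x - z)) -
        (E (φ n) - F) (m.S z (x - z)) := by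
      have a1 := eq_sub_of_add_eq (e5 0 (x - z))
      have a2 := eq_sub_of_add_eq (e5 (φ n) (x - z))
      simp only [_root_.add_apply, ContinuousLinearMap.comp_apply,
        _root_.sub_apply, a1, a2]
      abel
    rw [un0] at h3
    rw [h6]
    refine (norm_sub_le_of_le (norm_add_le_of_le h4 h3) h5).trans ?_
    have h7 := mul_le_mul_of_nonneg_right h1 (i0 (φ n)).1.le
    have h8 := mul_le_mul_of_nonneg_right hn (norm_nonneg (x - z))
    rw [div_eq_mul_inv]
    nlinarith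
  · have a1 := eq_sub_of_add_eq (e5 0 u)
    simp only [_root_.add_apply, ContinuousLinearMap.comp_apply,
      _root_.sub_apply, a1]
    abel

end Pool.Agent.MP_3ee8cb_gt.DQ
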