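import Pool.Agent.MP_3ee8cb_gt.DQ.Top
import Pool.Agent.MP_3ee8cb_gt.DQI.Num

/-! The choice of the constants. -/

namespace Pool.Agent.MP_3ee8cb_gt.DQ

open DN (Dim dm)

variable [Dim]

open Real DN DZ

theorem fin_of (H : ∀ {k e F₀ F₁ : ℝ}, 0 ≤ k → 0 ≤ e → dm * e < 4 → 2 ≤ F₀ → F₀ < F₁ →
    Nu1 k e F₁ → Nu3 F₀ → SLN.MainZ ((1 + k) ^ 2 - 1)) :
    SLN.MainZ ((1 + 41 / (10 * max (dm : ℝ) 4)) ^ 2 - 1) := by
  obtain ⟨N, hN⟩ : ∃ N, N = max (dm : ℝ) 4 := ⟨_, rfl⟩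
  have n4 : 4 ≤ N := hN ▸ le_max_right _ _
  have nd : (dm : ℝ) ≤ N := hN ▸ le_max_left _ _
  have n0 : 0 < N := by linarith
  rw [← hN]
  have s1 : N * N⁻¹ = 1 := mul_inv_cancel₀ n0.ne'
  have s0 : 0 < N⁻¹ := inv_pos.2 n0
  have e1 : 41 / (10 * N) = 4.1 * N⁻¹ := by
    field_simp
    norm_num
  have f2 : 2 ≤ √(0.91 * (N + 1)) := le_sqrt_of_sq_le (by linarith)
  refine H (e := 3.95 * N⁻¹) (F₁ := √(0.92 * (N + 1))) (by positivity) (by positivity) ?_ f2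
    (sqrt_lt_sqrt (by positivity) (by linarith)) (fun t x h1 h2 _ h4 => ?_) fun e he =>
      DQI.intS (by linarith) (by rw [sq_sqrt (by positivity)]; linarith) he
  · nlinarith [mul_le_mul_of_nonneg_right nd s0.le]
  · rw [sq_sqrt (by positivity)] at h1
    rw [e1] at h4 ⊢
    rw [mul_assoc (3.95 * N⁻¹)]
    refine DQI.num1 s0 (by nlinarith) ?_ h2 h4
    have := mul_le_mul_of_nonneg_left h1 s0.le
    have e2 : N⁻¹ * (0.92 * (N + 1) * t) = 0.92 * (N * N⁻¹ + N⁻¹) * t := by ring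
    rw [e2, s1] at this
    linarith

end Pool.Agent.MP_3ee8cb_gt.DQ
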