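import Pool.Agent.MP_3ee8cb_gt.DQ.Spec
import Pool.Agent.MP_3ee8cb_gt.DQJ.Alg
import Pool.Agent.MP_3ee8cb_gt.DZJ.Shell

/-! The algebraic half of the Jacobian estimate. -/

namespace Pool.Agent.MP_3ee8cb_gt.DQ

open DN (Dim dm)

variable [Dim]

open Set MeasureTheory DN DZ
open scoped RealInnerProductSpace

theorem sJB : SJB := by
  intro ε L Q hM hε ⟨l, h1, h2⟩
  have := hM.fin
  have hT : ∀ (e a w : V), l w (((innerSL ℝ a).smulRight e) (un w)) = l w e * ⟪un w, a⟫ :=
    fun e a w => by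
      simp only [ContinuousLinearMap.smulRight_apply, innerSL_apply_apply, map_smul, smul_eq_mul]
      rw [mul_comm, real_inner_comm]
  have key := DQJ.alg (Nat.succ_pos _) mS un l L ε (fun w => Q (un w))
    (hM.mem.mono fun w hw => DZJ.hat_norm (DZJ.sh_ne hw))
    DZJ.hat_meas.aestronglyMeasurable hM.iso
    (fun e a => by simpa only [hT] using (h1 ((innerSL ℝ a).smulRight e)).1)
    (fun e a => by simpa only [hT] using (h1 ((innerSL ℝ a).smulRight e)).2) hε
    (h2.mono fun w ⟨c, ζ, a1, a2, a3, a4, a5⟩ a => ⟨c, ζ, a1, a2, a3, a4, a5 a⟩)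
  exact ⟨key.1, fun h => (key.2 (le_antisymm key.1 h)).2⟩

end Pool.Agent.MP_3ee8cb_gt.DQ
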